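import Pool.Agent.HFW.Mods
import Pool.Agent.T3.Stmts3

/-!
HFW: the theorem, from the modules and the separation theorem for closed braids on three strands.
-/

set_option autoImplicit false

namespace Pool.Agent.HFW

open Pool.Agent.LibH11 Pool.Agent.IT
open Pool.Agent.T3 (rev)

theorem assemble (hF : T3.FIN4_Stmt) (hB : BND_Stmt) (hS : STA_Stmt) (b : Br 2) (h : IsKnot b)
    (n : ℕ) (w : Word) (hw : Bd n w) (h' : IsKnot (ev n w)) (hd : n ≤ 2 ∨ Detected n w)
    (hv : ∀ v : Knot → ℂ, IsFiniteType v → v (closure b h) = v (closure (ev n w) h')) :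
    closure b h = closure (ev n w) h' ∨
      ∃ hr : IsKnot (rev b), closure (rev b) hr = closure (ev n w) h' := by
  have hn : n ≤ 2 := by
    rcases hd with hd | hd
    · exact hd
    · obtain ⟨u, hu, rfl⟩ := exists_word b
      exact hB 2 n u w hu hw h h' hv hd
  obtain ⟨b', hb', e⟩ := hS n w hn hw h'
  rw [← e] at hv ⊢
  exact hF b b' h hb' hv

end Pool.Agent.HFW
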