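import Pool.Agent.HFW.Mods

/-!
HFW: the number of strands of a closed braid which is detected by the HOMFLY polynomial of a
cable is determined by the finite type invariants.
-/

set_option autoImplicit false

namespace Pool.Agent.HFW

open Pool.Agent.LibH11 Pool.Agent.IT

theorem t_BND (hM : MFW_Stmt) (hQ : QTX_Stmt) (hD : DIM_Stmt) (hI : INJ_Stmt) (hz : ZNE_Stmt)
    (hF : FTC_Stmt) : BND_Stmt := by
  intro n n' w w' hw hw' h h' hv hd
  obtain ⟨P, hP, p, q, hp, i, j, hi, hj, hij⟩ := hd
  have key : P (pn p n) (ev (pn p n) (cab p q w)) = P (pn p n') (ev (pn p n') (cab p q w')) := by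
    refine hI hz _ _ fun N hN => ?_
    have h1 := hQ hz P hP N (pn p n) (ev (pn p n) (cab p q w))
    have h2 := hQ hz P hP N (pn p n') (ev (pn p n') (cab p q w'))
    have h3 : gf N (pn p n) (ev (pn p n) (cab p q w)) =
        gf N (pn p n') (ev (pn p n') (cab p q w')) := by
      unfold gf
      rw [hF n n' w w' hw hw' h h' hv p q N hp]
    rw [h1, h2] at h3
    exact mul_left_cancel₀ (hD N hN) h3
  have e' : pn p n' = p * (n' + 1) - 1 := rfl
  rw [← e'] at hi hj hij
  rw [← key] at hi hj
  have h4 := hM P hP (pn p n) (ev (pn p n) (cab p q w)) i j hi hj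
  have h5 : pn p n' ≤ pn p n := by omega
  have h6 : p * (n' + 1) ≤ p * (n + 1) := by
    unfold pn at h5
    have : 1 ≤ p * (n + 1) := Nat.mul_pos hp (Nat.succ_pos n)
    omega
  have h7 := Nat.le_of_mul_le_mul_left h6 hp
  omega

end Pool.Agent.HFW
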