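import Pool.Agent.HFW.Mods

/-!
HFW: if the HOMFLY polynomial of a cable shows that a knot is not the closure of a braid on `m + 1`
strands, then finite type invariants distinguish it from all closures of braids on `m + 1` strands.
-/

set_option autoImplicit false

namespace Pool.Agent.HFW

open Pool.Agent.LibH11 Pool.Agent.IT

/-- The HOMFLY polynomial of the closure of the word `w` on `n + 1` strands, or of one of its
`(p, q)`-cables (`p = 1` is the knot itself), shows that the knot is not the closure of a braid on `m`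
strands: the span of its exponents of `a` is larger than `2 (p m - 1)`. (The
Morton-Franks-Williams inequality says that the span is at most `2 (p m - 1)` for the closure of a
braid on `p m` strands.) -/
def Exceeds (m n : ℕ) (w : Word) : Prop :=
  ∃ P : (n : ℕ) → Br n → Coeffs, IsHomfly P ∧ ∃ (p : ℕ) (q i j : ℤ), 1 ≤ p ∧
    (P (p * (n + 1) - 1) (ev (p * (n + 1) - 1) (cab p q w))).coeff i ≠ 0 ∧
    (P (p * (n + 1) - 1) (ev (p * (n + 1) - 1) (cab p q w))).coeff j ≠ 0 ∧
    2 * ((p : ℤ) * m - 1) < j - i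

theorem Detected.exceeds {n m : ℕ} {w : Word} (h : Detected n w) (hm : m ≤ n) : Exceeds m n w := by
  obtain ⟨P, hP, p, q, hp, i, j, hi, hj, hij⟩ := h
  refine ⟨P, hP, p, q, i, j, hp, hi, hj, lt_of_lt_of_le ?_ hij⟩
  have h1 : p * m < p * (n + 1) := Nat.mul_lt_mul_of_pos_left (by omega) hp
  have h2 : (p : ℤ) * m = ((p * m : ℕ) : ℤ) := by push_cast; ring
  rw [h2]
  omega

theorem not_exceeds (hM : MFW_Stmt) (hQ : QTX_Stmt) (hD : DIM_Stmt) (hI : INJ_Stmt)
    (hz : ZNE_Stmt) (hF : FTC_Stmt) (n n' : ℕ) (w w' : Word) (hw : Bd n w) (hw' : Bd n' w')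
    (h : IsKnot (ev n w)) (h' : IsKnot (ev n' w'))
    (hv : ∀ v : Knot → ℂ, IsFiniteType v → v (closure (ev n w) h) = v (closure (ev n' w') h')) :
    ¬ Exceeds (n + 1) n' w' := by
  rintro ⟨P, hP, p, q, i, j, hp, hi, hj, hij⟩
  have key : P (pn p n) (ev (pn p n) (cab p q w)) = P (pn p n') (ev (pn p n') (cab p q w')) := by
    refine hI hz _ _ fun N hN => ?_
    have h1 := hQ hz P hP N (pn p n) (ev (pn p n) (cab p q w))
    have h2 := hQ hz P hP N (pn p n') (ev (pn p n') (cab p q w'))
    have h3 : gf N (pn p n) (ev (pn p n) (cab p q w)) =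
        gf N (pn p n') (ev (pn p n') (cab p q w')) := by
      unfold gf
      rw [hF n n' w w' hw hw' h h' hv p q N hp]
    rw [h1, h2] at h3
    exact mul_left_cancel₀ (hD N hN) h3
  have e' : p * (n' + 1) - 1 = pn p n' := rfl
  rw [e', ← key] at hi hj
  have h4 := hM P hP (pn p n) (ev (pn p n) (cab p q w)) i j hi hj
  have h5 : 1 ≤ p * (n + 1) := Nat.mul_pos hp (Nat.succ_pos n)
  have h6 : ((pn p n : ℕ) : ℤ) = (p : ℤ) * ((n + 1 : ℕ) : ℤ) - 1 := by
    unfold pn
    rw [Nat.cast_sub h5]
    push_cast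
    ring
  rw [h6] at h4
  linarith

end Pool.Agent.HFW
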