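import Pool.Agent.HFW.Mods

/-!
# HFW, module DIM: the `gl_N` invariant of the unknot is not zero
-/

set_option autoImplicit false

namespace Pool.Agent.HFW

open Pool.Agent.LibH11 Pool.Agent.IT

theorem t_DIM : DIM_Stmt := by
  intro N hN h
  unfold gf at h
  have h1 : tr' (rp N 0 1).val = 0 :=
    (map_eq_zero_iff _ (IsFractionRing.injective (PowerSeries ℤ) KK)).1 h
  have h2 : PowerSeries.constantCoeff (tr' (rp N 0 1).val) = (N : ℤ) := by
    rw [cc_tr, red_rp, map_one, pm_one, Matrix.trace_one, Fintype.card_fun, Fintype.card_fin,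
      Fintype.card_fin]
    norm_num
  rw [h1, map_zero] at h2
  have h3 : (N : ℤ) ≠ 0 := by exact_mod_cast (by omega : N ≠ 0)
  exact h3 h2.symm

end Pool.Agent.HFW
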