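import Pool.Agent.HFW.Mods

/-! EXI: the HOMFLY polynomial exists. -/

set_option autoImplicit false

namespace Pool.Agent.HFW

open Pool.Agent.LibH11 Pool.Agent.IT

namespace EXI_aux

theorem qtr_skein {R : Type*} [CommRing R] {n N : ℕ} (q a : Rˣ) (b : Br n) (i : Fin n) :
    (a : R) * qtr q a (rep (Fin N) q a n (b * sg i)).val -
      ((a⁻¹ : Rˣ) : R) * qtr q a (rep (Fin N) q a n (b * (sg i)⁻¹)).val =
      zz q * qtr q a (rep (Fin N) q a n b).val := by
  have h1 : (rep (Fin N) q a n (b * sg i)).val = ((a⁻¹ : Rˣ) : R) •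
      ((rep (Fin N) q a n b).val * op (q : R) (zz q) i.castSucc i.succ) := by
    rw [map_mul, rep_sg, Units.val_mul]
    change (rep (Fin N) q a n b).val * (((a⁻¹ : Rˣ) : R) • op (q : R) (zz q) i.castSucc i.succ) = _
    rw [mul_smul_comm]
  have h2 : (rep (Fin N) q a n (b * (sg i)⁻¹)).val = (a : R) •
      ((rep (Fin N) q a n b).val * op (q : R) (zz q) i.castSucc i.succ -
        zz q • (rep (Fin N) q a n b).val) := by
    rw [map_mul, map_inv, rep_sg, Units.val_mul]
    change (rep (Fin N) q a n b).val *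
      ((a : R) • (op (q : R) (zz q) i.castSucc i.succ - zz q • 1)) = _
    rw [mul_smul_comm, mul_sub, mul_smul_comm, mul_one]
  rw [h1, h2, qtr_smul, qtr_smul, qtr_sub, qtr_smul, ← mul_assoc, ← mul_assoc, Units.mul_inv,
    Units.inv_mul]
  ring

theorem uq_pow (N : ℕ) : ((uq ^ N : KKˣ) : KK) =
    algebraMap (PowerSeries ℤ) KK ((aa N : (PowerSeries ℤ)ˣ) : PowerSeries ℤ) := by
  have h : uq ^ N = Units.map (algebraMap (PowerSeries ℤ) KK).toMonoidHom (aa N) := by
    unfold uq aa
    rw [map_pow]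
  rw [h]; rfl

theorem uq_pow_inv (N : ℕ) : (((uq ^ N)⁻¹ : KKˣ) : KK) =
    algebraMap (PowerSeries ℤ) KK (((aa N)⁻¹ : (PowerSeries ℤ)ˣ) : PowerSeries ℤ) := by
  have h : (uq ^ N)⁻¹ = Units.map (algebraMap (PowerSeries ℤ) KK).toMonoidHom (aa N)⁻¹ := by
    unfold uq aa
    rw [map_inv, map_pow]
  rw [h]; rfl

theorem sk_gf (N : ℕ) : Sk (uq ^ N) (algebraMap (PowerSeries ℤ) KK (zz qq)) (gf N) where
  conj n x b := by
    unfold gf
    exact congrArg _ (qtr_conj qq (aa N) x b)
  stabPos n b := by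
    unfold gf
    exact congrArg _ (qtr_stab qq (aa N) rfl b)
  stabNeg n b := by
    unfold gf
    exact congrArg _ (qtr_stabNeg qq (aa N) rfl b)
  skein n b i := by
    unfold gf
    rw [uq_pow, uq_pow_inv, ← map_mul, ← map_mul, ← map_mul, ← map_sub]
    exact congrArg _ (qtr_skein qq (aa N) b i)

theorem sk_smul {R : Type} [CommRing R] {a : Rˣ} {z : R} {F : (n : ℕ) → Br n → R}
    (h : Sk a z F) (c : R) : Sk a z (fun n b => F n b * c) where
  conj n x b := by rw [h.conj]
  stabPos n b := by rw [h.stabPos]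
  stabNeg n b := by rw [h.stabNeg]
  skein n b i := by
    rw [← mul_assoc, ← mul_assoc, ← mul_assoc, ← sub_mul, h.skein]

/-- The unit of the product ring. -/
def pu {K : Type} [CommRing K] (a : ℕ → Kˣ) : (ℕ → K)ˣ where
  val N := (a N : K)
  inv N := (((a N)⁻¹ : Kˣ) : K)
  val_inv := by funext N; exact Units.mul_inv _
  inv_val := by funext N; exact Units.inv_mul _

theorem sk_pi {K : Type} [CommRing K] (a : ℕ → Kˣ) (z : ℕ → K) (F : ℕ → (n : ℕ) → Br n → K)
    (h : ∀ N, Sk (a N) (z N) (F N)) : Sk (pu a) z (fun n b N => F N n b) where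
  conj n x b := by funext N; exact (h N).conj n x b
  stabPos n b := by funext N; exact (h N).stabPos n b
  stabNeg n b := by funext N; exact (h N).stabNeg n b
  skein n b i := by funext N; exact (h N).skein n b i

theorem exi_aux {R : Type} [CommRing R] (hred : RED_Stmt) (Φ : Coeffs →+* R)
    (hinj : Function.Injective Φ) (a : Rˣ) (z : R) (ha : Φ (va 1) = a)
    (ha' : Φ (va (-1)) = ((a⁻¹ : Rˣ) : R)) (hzz : Φ vz = z) (hzi : ∀ x y : R, z * x = z * y → x = y)
    (F : (n : ℕ) → Br n → R) (hF : Sk a z F) (h1 : F 0 1 = 1) :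
    ∃ P : (n : ℕ) → Br n → Coeffs, IsHomfly P := by
  have hva : ∀ k l : ℤ, va k * va l = va (k + l) := fun k l => (LaurentPolynomial.T_add k l).symm
  have hpow : ∀ e : ℤ, Φ (va e) = ((a ^ e : Rˣ) : R) := by
    have hu : ∀ e : ℤ, va e * va (-e) = 1 := by
      intro e; rw [hva, add_neg_cancel]; exact LaurentPolynomial.T_zero
    intro e
    induction e using Int.induction_on with
    | zero =>
      rw [zpow_zero, Units.val_one]
      have : va 0 = 1 := LaurentPolynomial.T_zero
      rw [this, map_one]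
    | succ i ih => rw [← hva, map_mul, ih, ha, zpow_add_one, Units.val_mul]
    | pred i ih =>
      rw [sub_eq_add_neg, ← hva, map_mul, ih, ha', ← sub_eq_add_neg, zpow_sub_one, Units.val_mul]
  set δ : Coeffs := LaurentPolynomial.C (LaurentPolynomial.T (-1)) * (va 1 - va (-1)) with hδ
  have hzd : vz * δ = va 1 - va (-1) := by
    rw [hδ, ← mul_assoc]
    have : vz * LaurentPolynomial.C (LaurentPolynomial.T (-1)) = 1 := by
      unfold vz
      rw [← map_mul, ← LaurentPolynomial.T_add, add_neg_cancel, LaurentPolynomial.T_zero, map_one]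
    rw [this, one_mul]
  have key : ∀ (n : ℕ) (b : Br n), ∃ x : Coeffs, Φ x = F n b := by
    intro n b
    have := hred R a z (Φ δ) (by rw [← hzz, ← map_mul, hzd, map_sub, ha, ha']) hzi F hF
      (fun _ => Φ.toAddMonoidHom.range)
      (by rintro n _ ⟨x, rfl⟩; exact ⟨vz * x, by
            change Φ (vz * x) = z * Φ x
            rw [map_mul, hzz]⟩)
      (by rintro n _ ⟨x, rfl⟩; exact ⟨δ * x, by
            change Φ (δ * x) = Φ δ * Φ x
            rw [map_mul]⟩)
      (by rintro n _ ⟨x, rfl⟩; exact ⟨va 1 * x, by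
            change Φ (va 1 * x) = a * Φ x
            rw [map_mul, ha]⟩)
      ⟨1, by change Φ 1 = F 0 1; rw [map_one, h1]⟩ n b
    obtain ⟨x, hx⟩ := this
    refine ⟨va (-es b) * x, ?_⟩
    have hx' : Φ x = ((a ^ es b : Rˣ) : R) * F n b := hx
    rw [map_mul, hx', hpow, ← mul_assoc, ← Units.val_mul, ← zpow_add, neg_add_cancel, zpow_zero,
      Units.val_one, one_mul]
  choose P hP using key
  refine ⟨P, ?_, ?_, ?_, ?_, ?_⟩
  · apply hinj; rw [hP, h1, map_one]
  · intro n x b; apply hinj; rw [hP, hP, hF.conj]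
  · intro n b; apply hinj; rw [hP, hP, hF.stabPos]
  · intro n b; apply hinj; rw [hP, hP, hF.stabNeg]
  · intro n b i; apply hinj
    rw [map_sub, map_mul, map_mul, map_mul, hP, hP, hP, ha, ha', hzz, hF.skein]

end EXI_aux

open EXI_aux in
theorem t_EXI : RED_Stmt → INJ_Stmt → DIM_Stmt → ZNE_Stmt → EXI_Stmt := by
  intro hred hinj hdim hz
  have hphi : ∀ (N : ℕ) (k : ℤ), phi hz N (va k) = (((uq ^ N) ^ k : KKˣ) : KK) := by
    intro N k
    unfold phi va
    exact LaurentPolynomial.eval₂_T _ _ _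
  have hphiz : ∀ N : ℕ, phi hz N vz = algebraMap (PowerSeries ℤ) KK (zz qq) := by
    intro N
    unfold phi vz
    rw [LaurentPolynomial.eval₂_C, LaurentPolynomial.eval₂_T, zpow_one]
    rfl
  refine exi_aux (R := ℕ → KK) hred (RingHom.pi fun N => phi hz (N + 1)) ?_
    (pu fun N => uq ^ (N + 1)) (fun _ => algebraMap (PowerSeries ℤ) KK (zz qq)) ?_ ?_ ?_ ?_
    (fun n b N => gf (N + 1) n b * (gf (N + 1) 0 1)⁻¹) ?_ ?_
  · intro r r' h
    refine hinj hz r r' fun N hN => ?_
    obtain ⟨M, rfl⟩ : ∃ M, N = M + 1 := ⟨N - 1, by omega⟩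
    exact congrFun h M
  · funext N
    change phi hz (N + 1) (va 1) = _
    rw [hphi, zpow_one]; rfl
  · funext N
    change phi hz (N + 1) (va (-1)) = _
    rw [hphi, zpow_neg, zpow_one]; rfl
  · funext N
    exact hphiz (N + 1)
  · intro x y h
    funext N
    exact mul_left_cancel₀ hz (congrFun h N)
  · exact sk_pi _ _ (fun N n b => gf (N + 1) n b * (gf (N + 1) 0 1)⁻¹)
      fun N => sk_smul (sk_gf (N + 1)) _
  · funext N
    exact mul_inv_cancel₀ (hdim (N + 1) (Nat.succ_le_succ (Nat.zero_le N)))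

end Pool.Agent.HFW
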