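import Pool.Agent.HFW.Mods
import Pool.Agent.LibH11.Coeff

/-!
HFW: the `gl_N` invariants of the cables of a knot are determined by its finite type invariants.
-/

set_option autoImplicit false

namespace Pool.Agent.HFW

open Pool.Agent.LibH11 Pool.Agent.IT PowerSeries

/-- The `gl_N` invariant of a closed braid. -/
noncomputable def qi (N : ℕ) (x : Σ n : ℕ, Br n) : PowerSeries ℤ := tr' (rp N x.1 x.2).val

theorem qi_eqv (N : ℕ) {x y : Σ n : ℕ, Br n} (h : Relation.EqvGen MarkovMove x y) :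
    qi N x = qi N y := by
  induction h with
  | rel x y h =>
    cases h with
    | conj n a b => exact (qtr_conj qq _ a b).symm
    | stabPos n b => exact (qtr_stab qq _ rfl b).symm
    | stabNeg n b => exact (qtr_stabNeg qq _ rfl b).symm
  | refl x => rfl
  | symm x y _ ih => exact ih.symm
  | trans x y z _ _ ih1 ih2 => exact ih1.trans ih2

/-- A word for a braid. -/
noncomputable def wd {n : ℕ} (b : Br n) : Word := (exists_word b).choose

theorem wd_bd {n : ℕ} (b : Br n) : Bd n (wd b) := (exists_word b).choose_spec.1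

theorem ev_wd {n : ℕ} (b : Br n) : ev n (wd b) = b := (exists_word b).choose_spec.2

theorem qi_cab (hC : CWD_Stmt) (p : ℕ) (q : ℤ) (N : ℕ) (hp : 1 ≤ p) {n m : ℕ} (w u : Word)
    (hw : Bd n w) (hu : Bd m u) (h : IsKnot (ev n w)) (hm : meq n w m u) :
    qi N ⟨pn p n, ev (pn p n) (cab p q w)⟩ = qi N ⟨pn p m, ev (pn p m) (cab p q u)⟩ :=
  qi_eqv N (hC p n m q w u hp hw hu h hm)

/-- The `gl_N` invariant of the cable of a knot. -/
noncomputable def cv (hC : CWD_Stmt) (p : ℕ) (q : ℤ) (N : ℕ) (hp : 1 ≤ p) :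
    Knot → PowerSeries ℤ :=
  Quot.lift (fun x : KnotBraid =>
    qi N ⟨pn p x.1.1, ev (pn p x.1.1) (cab p q (wd x.1.2))⟩) (by
    rintro ⟨x, hx⟩ ⟨y, hy⟩ h
    simp only at h ⊢
    refine qi_cab hC p q N hp (wd x.2) (wd y.2) (wd_bd _) (wd_bd _) ?_ ?_
    · rw [ev_wd]
      exact hx
    · unfold meq
      rw [ev_wd, ev_wd]
      exact Relation.EqvGen.rel _ _ h)

theorem cv_closure (hC : CWD_Stmt) (p : ℕ) (q : ℤ) (N : ℕ) (hp : 1 ≤ p) {n : ℕ} (w : Word)
    (hw : Bd n w) (h : IsKnot (ev n w)) :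
    cv hC p q N hp (closure (ev n w) h) = qi N ⟨pn p n, ev (pn p n) (cab p q w)⟩ := by
  change qi N ⟨pn p n, ev (pn p n) (cab p q (wd (ev n w)))⟩ = _
  refine qi_cab hC p q N hp (wd (ev n w)) w (wd_bd _) hw ?_ (meq_of_ev (ev_wd _))
  rw [ev_wd]
  exact h

theorem cv_order (hP : PSI_Stmt) (hV : VAN_Stmt) (hC : CWD_Stmt) (p : ℕ) (q : ℤ) (N : ℕ)
    (hp : 1 ≤ p) (k : ℕ) : HasOrderLE (fun K => coeff k (cv hC p q N hp K)) k := by
  intro n
  obtain ⟨Ψ, c, hΨ, hc⟩ := hP p n q hp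
  classical
  rw [onBraids_eq_ite (f := fun b : Br n => coeff k (tr' (rp N (pn p n) (Ψ b * c)).val))]
  · exact (hV n (pn p n) N k Ψ c hΨ).ite
      (fun g : Equiv.Perm (Fin (n + 1)) => ∀ x y, g.SameCycle x y)
  · intro b h
    obtain ⟨w, hw, rfl⟩ := exists_word b
    change coeff k (cv hC p q N hp (closure (ev n w) h)) = _
    rw [cv_closure hC p q N hp w hw h, qi_eqv N (hc w hw h)]
    rfl

theorem t_FTC (hP : PSI_Stmt) (hV : VAN_Stmt) (hC : CWD_Stmt) : FTC_Stmt := by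
  intro n n' w w' hw hw' h h' hv p q N hp
  have key : qi N ⟨pn p n, ev (pn p n) (cab p q w)⟩ =
      qi N ⟨pn p n', ev (pn p n') (cab p q w')⟩ := by
    rw [← cv_closure hC p q N hp w hw h, ← cv_closure hC p q N hp w' hw' h']
    ext k
    have h1 := hv (fun K => (Int.castAddHom ℂ) (coeff k (cv hC p q N hp K)))
      ⟨k, (cv_order hP hV hC p q N hp k).map (Int.castAddHom ℂ)⟩
    exact Int.cast_injective h1
  exact key

end Pool.Agent.HFW
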