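import Pool.Agent.HFW.Mods

/-!
# HFW: a Laurent polynomial is determined by its specialisations (module INJ)
-/

set_option autoImplicit false

namespace Pool.Agent.HFW

open Pool.Agent.LibH11 Pool.Agent.IT

namespace INJ_aux

/-- evaluation of a nonzero polynomial at `q - q⁻¹` -/
theorem eval_ne (hz0 : (zz qq : PowerSeries ℤ) ≠ 0) {h : Polynomial ℤ} (hh : h ≠ 0) :
    Polynomial.eval₂ (Int.castRingHom (PowerSeries ℤ)) (zz qq) h ≠ 0 := by
  obtain ⟨h₁, e, hnd⟩ := Polynomial.exists_eq_pow_rootMultiplicity_mul_and_not_dvd h hh (0 : ℤ)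
  rw [map_zero, sub_zero] at e hnd
  have h0 : h₁.coeff 0 ≠ 0 := fun h2 => hnd (Polynomial.X_dvd_iff.2 h2)
  have h2 : Polynomial.eval₂ (Int.castRingHom (PowerSeries ℤ)) (zz qq) h₁ ≠ 0 := by
    intro h3
    have h4 := congrArg (PowerSeries.constantCoeff (R := ℤ)) h3
    rw [Polynomial.hom_eval₂, map_zero] at h4
    have h5 : PowerSeries.constantCoeff (R := ℤ) (zz qq) = 0 := cc_zz
    rw [h5, Polynomial.eval₂_eq_eval_map, ← Polynomial.coeff_zero_eq_eval_zero,
      Polynomial.coeff_map] at h4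
    apply h0
    simpa using h4
  rw [e, Polynomial.eval₂_mul, Polynomial.eval₂_pow, Polynomial.eval₂_X]
  exact mul_ne_zero (pow_ne_zero _ hz0) h2

theorem lau_zero {R : Type} [CommRing R] {f : LaurentPolynomial R} {k : ℕ}
    (h : f * LaurentPolynomial.T k = 0) : f = 0 := by
  have h1 := congrArg (fun x => x * LaurentPolynomial.T (R := R) (-(k : ℤ))) h
  simp only [zero_mul] at h1
  rw [mul_assoc, ← LaurentPolynomial.T_add, add_neg_cancel, LaurentPolynomial.T_zero,
    mul_one] at h1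
  exact h1

/-- the coefficients are embedded in `KK` -/
theorem psi_inj (hz : ZNE_Stmt) : Function.Injective
    (LaurentPolynomial.eval₂ (Int.castRingHom KK) (Units.mk0 _ hz)) := by
  rw [injective_iff_map_eq_zero]
  intro g hg
  obtain ⟨n, g', hn⟩ := g.exists_T_pow
  have h1 : Polynomial.eval₂ (Int.castRingHom KK) (algebraMap (PowerSeries ℤ) KK (zz qq)) g' = 0 := by
    have h2 := LaurentPolynomial.eval₂_toLaurent (f := Int.castRingHom KK) (x := Units.mk0 _ hz) g'
    rw [hn, map_mul, hg, zero_mul] at h2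
    exact h2.symm
  have h3 : algebraMap (PowerSeries ℤ) KK
      (Polynomial.eval₂ (Int.castRingHom (PowerSeries ℤ)) (zz qq) g') = 0 := by
    rw [Polynomial.hom_eval₂]
    have h4 : (algebraMap (PowerSeries ℤ) KK).comp (Int.castRingHom (PowerSeries ℤ)) =
        Int.castRingHom KK := Subsingleton.elim _ _
    rw [h4]
    exact h1
  have hz0 : (zz qq : PowerSeries ℤ) ≠ 0 := by
    intro h4
    apply hz
    rw [h4, map_zero]
  have h5 : g' = 0 := by
    by_contra hne
    apply eval_ne hz0 hne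
    apply IsFractionRing.injective (PowerSeries ℤ) KK
    rw [h3, map_zero]
  rw [h5, map_zero] at hn
  exact lau_zero hn.symm

theorem uq_pow (N : ℕ) : ((uq ^ N : KKˣ) : KK) =
    algebraMap (PowerSeries ℤ) KK (aa N : PowerSeries ℤ) := by
  unfold uq aa
  rw [Units.val_pow_eq_pow_val, Units.val_pow_eq_pow_val, map_pow]
  rfl

theorem uq_inj {N M : ℕ} (h : ((uq ^ N : KKˣ) : KK) = ((uq ^ M : KKˣ) : KK)) : N = M := by
  rw [uq_pow, uq_pow] at h
  have h1 := IsFractionRing.injective (PowerSeries ℤ) KK h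
  have h2 := congrArg (PowerSeries.coeff (R := ℤ) 1) h1
  rw [c1_aa, c1_aa] at h2
  exact_mod_cast h2

end INJ_aux

open INJ_aux in
theorem t_INJ : INJ_Stmt := by
  intro hz r r' hr
  obtain ⟨k, g, hk⟩ := (r - r').exists_T_pow
  obtain ⟨ψ, hψ⟩ : ∃ ψ : LaurentPolynomial ℤ →+* KK,
    ψ = LaurentPolynomial.eval₂ (Int.castRingHom KK) (Units.mk0 _ hz) := ⟨_, rfl⟩
  have hinj : Function.Injective ψ := by
    rw [hψ]
    exact psi_inj hz
  have hroot : ∀ N : ℕ, 1 ≤ N → (g.map ψ).IsRoot ((uq ^ N : KKˣ) : KK) := by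
    intro N hN
    have h1 : phi hz N (Polynomial.toLaurent g) = Polynomial.eval₂ ψ ((uq ^ N : KKˣ) : KK) g := by
      unfold phi
      rw [← hψ]
      exact LaurentPolynomial.eval₂_toLaurent (f := ψ) (x := uq ^ N) g
    rw [hk, map_mul, map_sub, hr N hN, sub_self, zero_mul] at h1
    rw [Polynomial.IsRoot.def, ← Polynomial.eval₂_eq_eval_map]
    exact h1.symm
  have hinf : Set.Infinite {x | (g.map ψ).IsRoot x} := by
    have h1 : Set.Infinite (Set.range fun N : ℕ => ((uq ^ (N + 1) : KKˣ) : KK)) := by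
      refine Set.infinite_range_of_injective fun N M h => ?_
      have := uq_inj h
      omega
    refine h1.mono ?_
    rintro x ⟨N, rfl⟩
    exact hroot (N + 1) (by omega)
  have h0 : g.map ψ = 0 := Polynomial.eq_zero_of_infinite_isRoot _ hinf
  have hg : g = 0 := by
    apply Polynomial.map_injective ψ hinj
    rw [h0, Polynomial.map_zero]
  rw [hg, map_zero] at hk
  exact sub_eq_zero.1 (lau_zero hk.symm)

end Pool.Agent.HFW
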