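import Pool.Agent.HFW.Mods

/-!
# HFW_MFW: the Morton-Franks-Williams inequality
-/

set_option autoImplicit false

namespace Pool.Agent.HFW

open Pool.Agent.LibH11 Pool.Agent.IT

namespace MFW_aux

open LaurentPolynomial

lemma coeff_T_mul (k : ℤ) (f : Coeffs) (i : ℤ) : (T k * f).coeff i = f.coeff (i - k) := by
  have h := AddMonoidAlgebra.coeff_single_mul_apply f (1 : LaurentPolynomial ℤ) k i
  rw [one_mul] at h
  rw [sub_eq_neg_add]
  exact h

lemma coeff_C_mul (c : LaurentPolynomial ℤ) (f : Coeffs) (i : ℤ) :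
    (C c * f).coeff i = c * f.coeff i := by
  have h := AddMonoidAlgebra.coeff_single_mul_apply f c 0 i
  rw [neg_zero, zero_add] at h
  exact h

/-- The unit `T k`. -/
noncomputable def uT (k : ℤ) : Coeffsˣ where
  val := T k
  inv := T (-k)
  val_inv := by rw [← T_add, add_neg_cancel, T_zero]
  inv_val := by rw [← T_add, neg_add_cancel, T_zero]

/-- The homomorphism `k ↦ T k`. -/
noncomputable def hT : Multiplicative ℤ →* Coeffsˣ where
  toFun k := uT (Multiplicative.toAdd k)
  map_one' := by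
    apply Units.ext
    exact T_zero
  map_mul' j k := by
    apply Units.ext
    exact T_add _ _

lemma uT_zpow (k : ℤ) : (uT 1) ^ k = uT k := by
  have h := map_zpow hT (Multiplicative.ofAdd (1 : ℤ)) k
  have h2 : (Multiplicative.ofAdd (1 : ℤ)) ^ k = Multiplicative.ofAdd k := by
    rw [← ofAdd_zsmul]
    simp
  rw [h2] at h
  exact h.symm

lemma uT_zpow_val (k : ℤ) : (((uT 1) ^ k : Coeffsˣ) : Coeffs) = T k := by
  rw [uT_zpow]
  rfl

lemma uT_inv_val : (((uT 1)⁻¹ : Coeffsˣ) : Coeffs) = T (-1) := rfl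

/-- The elements with exponents in `[-n, n]`. -/
noncomputable def MM (n : ℕ) : AddSubgroup Coeffs where
  carrier := {f | ∀ i : ℤ, (n : ℤ) < |i| → f.coeff i = 0}
  add_mem' := by
    intro f g hf hg i hi
    rw [AddMonoidAlgebra.coeff_add, Finsupp.add_apply, hf i hi, hg i hi, add_zero]
  zero_mem' := by
    intro i _
    rfl
  neg_mem' := by
    intro f hf i hi
    rw [AddMonoidAlgebra.coeff_neg, Finsupp.neg_apply, hf i hi, neg_zero]

lemma mem_MM (n : ℕ) (f : Coeffs) : f ∈ MM n ↔ ∀ i : ℤ, (n : ℤ) < |i| → f.coeff i = 0 := Iff.rfl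

lemma C_mem (n : ℕ) (c : LaurentPolynomial ℤ) {f : Coeffs} (hf : f ∈ MM n) : C c * f ∈ MM n := by
  intro i hi
  rw [coeff_C_mul, hf i hi, mul_zero]

lemma T_mem (n : ℕ) (k : ℤ) (hk : |k| ≤ 1) {f : Coeffs} (hf : f ∈ MM n) :
    T k * f ∈ MM (n + 1) := by
  intro i hi
  rw [coeff_T_mul]
  apply hf
  push_cast at hi
  have h1 : |i| ≤ |i - k| + |k| := by
    have := abs_add_le (i - k) k
    rwa [sub_add_cancel] at this
  linarith

end MFW_aux

open MFW_aux LaurentPolynomial in
theorem t_MFW : RED_Stmt → MFW_Stmt := by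
  intro hRED P hP n b i j hi hj
  have hmem := hRED Coeffs (uT 1) vz (C (T (-1)) * (T 1 - T (-1))) (by
      show C (T 1) * (C (T (-1)) * (T 1 - T (-1))) = T 1 - T (-1)
      rw [← mul_assoc, ← map_mul, ← T_add, add_neg_cancel, T_zero, map_one, one_mul])
    (by
      intro x y h
      have h2 : C (T (-1)) * (vz * x) = C (T (-1)) * (vz * y) := by rw [h]
      have h3 : C (T (-1)) * vz = (1 : Coeffs) := by
        show C (T (-1)) * C (T 1) = 1
        rw [← map_mul, ← T_add, neg_add_cancel, T_zero, map_one]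
      rwa [← mul_assoc, ← mul_assoc, h3, one_mul, one_mul] at h2)
    P ⟨hP.conj, hP.stabPos, hP.stabNeg, hP.skein⟩ MM
    (fun n x hx => C_mem n _ hx)
    (fun n x hx => by
      rw [mul_assoc, sub_mul]
      exact C_mem _ _ (AddSubgroup.sub_mem _ (T_mem n 1 (by simp) hx) (T_mem n (-1) (by simp) hx)))
    (fun n x hx => T_mem n 1 (by simp) hx)
    (by
      rw [hP.unknot]
      intro i hi
      have h : (1 : Coeffs) = C 1 := (map_one _).symm
      rw [h, C_apply, if_neg]
      rintro rfl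
      simp at hi) n b
  rw [uT_zpow_val] at hmem
  have key : ∀ k : ℤ, (P n b).coeff k ≠ 0 → |k + es b| ≤ n := by
    intro k hk
    by_contra h
    apply hk
    have h2 := hmem (k + es b) (not_le.1 h)
    rwa [coeff_T_mul, add_sub_cancel_right] at h2
  have h1 := abs_le.1 (key i hi)
  have h2 := abs_le.1 (key j hj)
  linarith [h1.1, h1.2, h2.1, h2.2]

end Pool.Agent.HFW
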