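import Pool.Agent.HFW.Mods
import Pool.Agent.IT.Prm

/-!
# HFW: PRB, permutations of the full twists of blocks and of the parallel
-/

set_option autoImplicit false

namespace Pool.Agent.HFW

open Pool.Agent.LibH11 Pool.Agent.IT Pool.Agent.IT.PRM

namespace PRB_aux

theorem pw_shw_add (s : ℕ) (w : Word) (x : ℕ) : pw (shw s w) (x + s) = pw w x + s := by
  induction w with
  | nil => rfl
  | cons y w ih =>
    have h1 : shw s (y :: w) = (y.1 + s, y.2) :: shw s w := rfl
    rw [h1, pw_cons, Equiv.Perm.mul_apply, ih, pw_cons, Equiv.Perm.mul_apply,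
      Equiv.swap_apply_def, Equiv.swap_apply_def]
    simp only
    split_ifs <;> omega

theorem pw_shw_lt (s : ℕ) (w : Word) (x : ℕ) (hx : x < s) : pw (shw s w) x = x := by
  induction w with
  | nil => rfl
  | cons y w ih =>
    have h1 : shw s (y :: w) = (y.1 + s, y.2) :: shw s w := rfl
    rw [h1, pw_cons, Equiv.Perm.mul_apply, ih, Equiv.swap_apply_def]
    simp only
    split_ifs <;> omega

theorem pw_tor_self {p : ℕ} (hp : 1 ≤ p) (x : ℕ) : pw (tor p p) x = x := by
  have : NeZero p := ⟨by omega⟩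
  rcases lt_or_ge x p with h | h
  · have h1 := pw_tor_zmod hp (p : ℤ) ((x : ℕ) : ZMod p)
    have h2 : ((x : ℕ) : ZMod p).val = x := ZMod.val_cast_of_lt h
    rw [h2] at h1
    rw [h1]
    simp [h2]
  · exact pw_tor_ge h hp _

theorem bd_shw {p n : ℕ} (hp : 1 ≤ p) (k : Fin (n + 1)) (r : ℤ) :
    Bd (pn p n) (shw (p * (k : ℕ)) (tor p r)) := by
  intro x hx
  unfold shw at hx
  rw [List.mem_map] at hx
  obtain ⟨y, hy, rfl⟩ := hx
  have h1 := bd_tor p r y hy
  simp only
  have h2 := pn_succ (n := n) hp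
  have h3 : p * ((k : ℕ) + 1) ≤ p * (n + 1) := Nat.mul_le_mul_left p k.2
  have h4 : p * ((k : ℕ) + 1) = p * k + p := by ring
  omega

theorem par_sq {p : ℕ} (hp : 1 ≤ p) (i x : ℕ) :
    pw (par p [(i, true)]) (pw (par p [(i, true)]) x) = x := by
  have h1 : x = p * (x / p) + x % p := (Nat.div_add_mod x p).symm
  have h2 : x % p < p := Nat.mod_lt _ (by omega)
  conv_lhs => rw [h1]
  rw [pw_par hp _ _ _ h2, pw_par hp _ _ _ h2, pw_single]
  simp only [Equiv.swap_apply_self]
  exact h1.symm

end PRB_aux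

open PRB_aux in
theorem t_PRB : PRB_Stmt := by
  intro p n hp Φ hΦ
  constructor
  · intro k
    unfold tk
    ext x
    rw [perm_ev _ (bd_shw hp k _)]
    rw [Equiv.Perm.one_apply]
    rcases lt_or_ge (x : ℕ) (p * (k : ℕ)) with h | h
    · exact pw_shw_lt _ _ _ h
    · obtain ⟨y, hy⟩ := Nat.exists_eq_add_of_le' h
      rw [hy, pw_shw_add, pw_tor_self hp]
  · intro i
    have hb : Bd n [((i : ℕ), true)] := by
      intro x hx
      rw [List.mem_singleton] at hx
      rw [hx]
      exact i.2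
    have h1 : sg i = ev n [((i : ℕ), true)] := by
      have h2 := gen_true (N := n) i.2
      unfold ev
      rw [List.map_singleton, List.prod_singleton, h2]
    rw [h1, ← hΦ _ hb]
    ext x
    rw [Equiv.Perm.mul_apply, perm_ev _ (bd_par hp _ hb), perm_ev _ (bd_par hp _ hb),
      par_sq hp, Equiv.Perm.one_apply]

end Pool.Agent.HFW
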