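import Pool.Agent.HFW.Mods

/-!
# HFW, module PSB: the framed parallel
-/

set_option autoImplicit false

namespace Pool.Agent.HFW

open Pool.Agent.LibH11 Pool.Agent.IT

namespace PSB_aux

theorem far {G : Type*} [Group G] (A B a b : G) (h : A * B = B * A) (h1 : B * a = a * B)
    (h2 : A * b = b * A) (h3 : a * b = b * a) :
    (A * a⁻¹) * (B * b⁻¹) = (B * b⁻¹) * (A * a⁻¹) := by
  have e1 : a⁻¹ * B = B * a⁻¹ := by
    rw [inv_mul_eq_iff_eq_mul, ← mul_assoc, ← h1, mul_assoc, mul_inv_cancel, mul_one]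
  have e2 : b⁻¹ * A = A * b⁻¹ := by
    rw [inv_mul_eq_iff_eq_mul, ← mul_assoc, ← h2, mul_assoc, mul_inv_cancel, mul_one]
  have e3 : a⁻¹ * b⁻¹ = b⁻¹ * a⁻¹ := by
    rw [← mul_inv_rev, ← mul_inv_rev, h3]
  calc (A * a⁻¹) * (B * b⁻¹) = A * (a⁻¹ * B) * b⁻¹ := by group
    _ = (A * B) * (a⁻¹ * b⁻¹) := by rw [e1]; group
    _ = (B * A) * (b⁻¹ * a⁻¹) := by rw [h, e3]
    _ = B * (A * b⁻¹) * a⁻¹ := by group
    _ = B * (b⁻¹ * A) * a⁻¹ := by rw [e2]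
    _ = (B * b⁻¹) * (A * a⁻¹) := by group

theorem near {G : Type*} [Group G] (A B a b : G) (h : A * B * A = B * A * B)
    (h1 : A * a = b * A) (h2 : A * b = a * A) (h3 : B * a = a * B) (h4 : a * b = b * a) :
    (A * a⁻¹) * (B * b⁻¹) * (A * a⁻¹) = (B * b⁻¹) * (A * a⁻¹) * (B * b⁻¹) := by
  have e1 : b⁻¹ * A = A * a⁻¹ := by
    rw [inv_mul_eq_iff_eq_mul, ← mul_assoc, ← h1, mul_assoc, mul_inv_cancel, mul_one]
  have e2 : a⁻¹ * A = A * b⁻¹ := by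
    rw [inv_mul_eq_iff_eq_mul, ← mul_assoc, ← h2, mul_assoc, mul_inv_cancel, mul_one]
  have e3 : a⁻¹ * B = B * a⁻¹ := by
    rw [inv_mul_eq_iff_eq_mul, ← mul_assoc, ← h3, mul_assoc, mul_inv_cancel, mul_one]
  have e4 : a⁻¹ * b⁻¹ = b⁻¹ * a⁻¹ := by
    rw [← mul_inv_rev, ← mul_inv_rev, h4]
  have l1 : (A * a⁻¹) * (B * b⁻¹) * (A * a⁻¹) = (A * B * A) * (b⁻¹ * a⁻¹ * a⁻¹) := by
    calc (A * a⁻¹) * (B * b⁻¹) * (A * a⁻¹) = A * (a⁻¹ * B) * (b⁻¹ * A) * a⁻¹ := by group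
      _ = A * B * (a⁻¹ * A) * a⁻¹ * a⁻¹ := by rw [e3, e1]; group
      _ = (A * B * A) * (b⁻¹ * a⁻¹ * a⁻¹) := by rw [e2]; group
  have l2 : (B * b⁻¹) * (A * a⁻¹) * (B * b⁻¹) = (B * A * B) * (a⁻¹ * a⁻¹ * b⁻¹) := by
    calc (B * b⁻¹) * (A * a⁻¹) * (B * b⁻¹) = B * (b⁻¹ * A) * (a⁻¹ * B) * b⁻¹ := by group
      _ = B * (A * a⁻¹) * (B * a⁻¹) * b⁻¹ := by rw [e1, e3]
      _ = B * A * (a⁻¹ * B) * a⁻¹ * b⁻¹ := by group
      _ = (B * A * B) * (a⁻¹ * a⁻¹ * b⁻¹) := by rw [e3]; group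
  have l3 : b⁻¹ * a⁻¹ * a⁻¹ = a⁻¹ * a⁻¹ * b⁻¹ := by
    rw [← e4, mul_assoc, ← e4, ← mul_assoc]
  rw [l1, l2, h, l3]

end PSB_aux

theorem t_PSB : TWC_Stmt → PSB_Stmt := by
  intro hT p n hp Φ hΦ
  obtain ⟨hc, -, hs, -⟩ := hT p n hp Φ hΦ
  have key : ∀ (i : Fin n) (k l : Fin (n + 1)), Equiv.swap i.castSucc i.succ k = l →
      Φ (sg i) * tk p n k = tk p n l * Φ (sg i) := by
    intro i k l h
    have h1 := hs (sg i) k
    rw [LibH11.perm_sg, h] at h1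
    exact h1
  refine ⟨liftBr (fun i => Φ (sg i) * (tk p n i.castSucc)⁻¹) ?_ ?_, fun i => liftBr_sg _ _ _ i⟩
  · intro i j hij
    refine PSB_aux.far _ _ _ _ ?_ ?_ ?_ (hc _ _)
    · rw [← map_mul, ← map_mul, sg_comm i j hij]
    · refine key j _ _ (Equiv.swap_apply_of_ne_of_ne ?_ ?_) <;>
        simp only [ne_eq, Fin.ext_iff, Fin.val_castSucc, Fin.val_succ] <;> omega
    · refine key i _ _ (Equiv.swap_apply_of_ne_of_ne ?_ ?_) <;>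
        simp only [ne_eq, Fin.ext_iff, Fin.val_castSucc, Fin.val_succ] <;> omega
  · intro i j hij
    have hij' : i.succ = j.castSucc := by
      simp only [Fin.ext_iff, Fin.val_castSucc, Fin.val_succ]; omega
    refine PSB_aux.near _ _ _ _ ?_ ?_ ?_ ?_ (hc _ _)
    · rw [← map_mul, ← map_mul, ← map_mul, ← map_mul, sg_braid i j hij]
    · refine key i _ _ ?_
      rw [← hij', Equiv.swap_apply_left]
    · refine key i _ _ ?_
      rw [← hij', Equiv.swap_apply_right]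
    · refine key j _ _ (Equiv.swap_apply_of_ne_of_ne ?_ ?_) <;>
        simp only [ne_eq, Fin.ext_iff, Fin.val_castSucc, Fin.val_succ] <;> omega

end Pool.Agent.HFW
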