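import Pool.Agent.HFW.Mods

/-!
HFW, module PSC: the closure of the framed parallel of a knot with a torus braid is the cable.
-/

set_option autoImplicit false

namespace Pool.Agent.HFW.PSC_aux

open Pool.Agent.LibH11 Pool.Agent.IT

/-- Products of the `t k` and their inverses, with the total exponent. -/
inductive W {G : Type} [Group G] {m : ℕ} (t : Fin m → G) : ℤ → G → Prop
  | one : W t 0 1
  | pos (k : Fin m) (e : ℤ) (Z : G) : W t e Z → W t (e + 1) (t k * Z)
  | neg (k : Fin m) (e : ℤ) (Z : G) : W t e Z → W t (e - 1) ((t k)⁻¹ * Z)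

variable {G : Type} [Group G] {m : ℕ} {t : Fin m → G}

theorem W.mul {e e' : ℤ} {Z Z' : G} (h : W t e Z) (h' : W t e' Z') : W t (e + e') (Z * Z') := by
  induction h with
  | one => rw [zero_add, one_mul]; exact h'
  | pos k e Z _ ih =>
    have := W.pos k _ _ ih
    rwa [← mul_assoc, show e + e' + 1 = e + 1 + e' by ring] at this
  | neg k e Z _ ih =>
    have := W.neg k _ _ ih
    rwa [← mul_assoc, show e + e' - 1 = e - 1 + e' by ring] at this

theorem W.single_pos (k : Fin m) : W t 1 (t k) := by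
  have := W.pos (t := t) k 0 1 W.one
  rwa [mul_one, zero_add] at this

theorem W.single_neg (k : Fin m) : W t (-1) (t k)⁻¹ := by
  have := W.neg (t := t) k 0 1 W.one
  rwa [mul_one, zero_sub] at this

theorem W.comm {e : ℤ} {Z : G} (h : W t e Z) {x : G} (hx : ∀ k, Commute (t k) x) :
    Commute Z x := by
  induction h with
  | one => exact Commute.one_left x
  | pos k e Z _ ih => exact (hx k).mul_left ih
  | neg k e Z _ ih => exact (hx k).inv_left.mul_left ih

theorem slide_inv {x : G} {k k' : Fin m} (h : x * t k' = t k * x) :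
    x * (t k')⁻¹ = (t k)⁻¹ * x := by
  rw [mul_inv_eq_iff_eq_mul, mul_assoc, h, inv_mul_cancel_left]

theorem W.slide {e : ℤ} {Z : G} (h : W t e Z) {x : G} {σ : Equiv.Perm (Fin m)}
    (hx : ∀ k, x * t k = t (σ k) * x) : ∃ Z', W t e Z' ∧ Z * x = x * Z' := by
  induction h with
  | one => exact ⟨1, W.one, by rw [one_mul, mul_one]⟩
  | pos k e Z _ ih =>
    obtain ⟨Z', h1, h2⟩ := ih
    refine ⟨t (σ⁻¹ k) * Z', W.pos _ _ _ h1, ?_⟩
    have h3 := hx (σ⁻¹ k)
    rw [show σ (σ⁻¹ k) = k from σ.apply_symm_apply k] at h3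
    rw [mul_assoc, h2, ← mul_assoc, ← mul_assoc, h3]
  | neg k e Z _ ih =>
    obtain ⟨Z', h1, h2⟩ := ih
    refine ⟨(t (σ⁻¹ k))⁻¹ * Z', W.neg _ _ _ h1, ?_⟩
    have h3 := hx (σ⁻¹ k)
    rw [show σ (σ⁻¹ k) = k from σ.apply_symm_apply k] at h3
    rw [mul_assoc, h2, ← mul_assoc, ← mul_assoc, slide_inv h3]

theorem exc {N n : ℕ} (x : Br N) (σ : Equiv.Perm (Fin (n + 1))) (hσ : ∀ k l, σ.SameCycle k l)
    (s : Fin (n + 1) → Br N) (hs : ∀ k, x * s k = s (σ k) * x) (y : Br N)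
    (hy : ∀ k, Commute (s k) y) (k l : Fin (n + 1)) :
    Relation.EqvGen MarkovMove ⟨N, x * (s k * y)⟩ ⟨N, x * (s l * y)⟩ := by
  have step : ∀ k, Relation.EqvGen MarkovMove ⟨N, x * (s (σ k) * y)⟩ ⟨N, x * (s k * y)⟩ := by
    intro k
    have h := Relation.EqvGen.rel _ _ (MarkovMove.conj N (s (σ k)) (x * (s (σ k) * y)))
    have e : s (σ k) * (x * (s (σ k) * y)) * (s (σ k))⁻¹ = x * (s k * y) := by
      rw [(hy (σ k)).eq, mul_assoc, mul_assoc, mul_assoc, mul_inv_cancel, mul_one,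
        ← mul_assoc, ← hs k, mul_assoc]
    rwa [e] at h
  have all : ∀ i : ℤ, Relation.EqvGen MarkovMove ⟨N, x * (s k * y)⟩
      ⟨N, x * (s ((σ ^ i) k) * y)⟩ := by
    intro i
    induction i using Int.induction_on with
    | zero => simpa using Relation.EqvGen.refl _
    | succ j ih =>
      refine ih.trans _ _ _ ?_
      have h := (step ((σ ^ (j : ℤ)) k)).symm
      rwa [← Equiv.Perm.mul_apply, ← zpow_one_add, add_comm (1 : ℤ)] at h
    | pred j ih =>
      refine ih.trans _ _ _ ?_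
      have h := step ((σ ^ (-(j : ℤ) - 1)) k)
      rwa [← Equiv.Perm.mul_apply, ← zpow_one_add, add_sub_cancel] at h
  obtain ⟨i, hi⟩ := hσ k l
  rw [← hi]
  exact all i

theorem gather {N n : ℕ} (x : Br N) (σ : Equiv.Perm (Fin (n + 1))) (hσ : ∀ k l, σ.SameCycle k l)
    (t : Fin (n + 1) → Br N) (hs : ∀ k, x * t k = t (σ k) * x)
    (ht : ∀ k l, Commute (t k) (t l)) {e : ℤ} {Z : Br N} (h : W t e Z) :
    ∀ y : Br N, (∀ k, Commute (t k) y) →
    Relation.EqvGen MarkovMove ⟨N, x * (Z * y)⟩ ⟨N, x * (t 0 ^ e * y)⟩ := by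
  induction h with
  | one => intro y _; simpa using Relation.EqvGen.refl _
  | pos k e Z hZ ih =>
    intro y hy
    have c1 : ∀ k, Commute (t k) (Z * y) := fun k =>
      (hZ.comm (fun l => ht l k)).symm.mul_right (hy k)
    have h1 := exc x σ hσ t hs (Z * y) c1 k 0
    have h2 := ih (t 0 * y) (fun k => (ht k 0).mul_right (hy k))
    rw [mul_assoc]
    refine h1.trans _ _ _ ?_
    rw [← mul_assoc (t 0), (hZ.comm (fun l => ht l 0)).symm.eq, mul_assoc Z]
    refine h2.trans _ _ _ ?_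
    rw [← mul_assoc (t 0 ^ e), ← zpow_add_one]
    exact Relation.EqvGen.refl _
  | neg k e Z hZ ih =>
    intro y hy
    have c1 : ∀ k, Commute (t k)⁻¹ (Z * y) := fun k =>
      ((hZ.comm (fun l => ht l k)).symm.mul_right (hy k)).inv_left
    have h1 := exc x σ hσ (fun k => (t k)⁻¹) (fun k => slide_inv (hs k)) (Z * y) c1 k 0
    have h2 := ih ((t 0)⁻¹ * y) (fun k => (ht k 0).inv_right.mul_right (hy k))
    rw [mul_assoc]
    refine h1.trans _ _ _ ?_
    rw [← mul_assoc (t 0)⁻¹, ((hZ.comm (fun l => ht l 0)).symm.inv_left).eq, mul_assoc Z]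
    refine h2.trans _ _ _ ?_
    rw [← mul_assoc (t 0 ^ e), ← zpow_sub_one]
    exact Relation.EqvGen.refl _

theorem split {N n : ℕ} (Φ Ψ : Br n →* Br N) (t : Fin (n + 1) → Br N)
    (hs : ∀ (b : Br n) (k : Fin (n + 1)), Φ b * t k = t (perm b k) * Φ b)
    (hΨ : ∀ i : Fin n, Ψ (sg i) = Φ (sg i) * (t i.castSucc)⁻¹) (w : Word) :
    Bd n w → ∃ Z, W t (- wr w) Z ∧ Ψ (ev n w) = Φ (ev n w) * Z := by
  induction w with
  | nil =>
    intro _
    refine ⟨1, ?_, by simp⟩
    rw [wr_nil, neg_zero]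
    exact W.one
  | cons x v ih =>
    intro hb
    obtain ⟨Z, hZ, hv⟩ := ih (fun y hy => hb y (List.mem_cons_of_mem _ hy))
    have hx : x.1 < n := hb x List.mem_cons_self
    have h0 : ∃ Z0, W t (- wr [x]) Z0 ∧ Ψ (gen n x) = Φ (gen n x) * Z0 := by
      rcases x with ⟨i, e⟩
      have hi : i < n := hx
      cases e with
      | true =>
        refine ⟨(t (Fin.castSucc ⟨i, hi⟩))⁻¹, ?_, by rw [gen_true hi, hΨ]⟩
        have : wr [(i, true)] = 1 := by simp [wr]
        rw [this]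
        exact W.single_neg _
      | false =>
        have h1 : Ψ (gen n (i, false)) = t (Fin.castSucc ⟨i, hi⟩) * Φ (gen n (i, false)) := by
          rw [gen_false, gen_true hi, map_inv, hΨ, mul_inv_rev, inv_inv, map_inv]
        obtain ⟨Z', h2, h3⟩ := (W.single_pos (t := t) (Fin.castSucc ⟨i, hi⟩)).slide
          (hs (gen n (i, false)))
        refine ⟨Z', ?_, by rw [h1, h3]⟩
        have : wr [(i, false)] = -1 := by simp [wr]
        rw [this, neg_neg]
        exact h2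
    obtain ⟨Z0, hZ0, hx0⟩ := h0
    obtain ⟨Z1, hZ1, hm⟩ := hZ0.slide (hs (ev n v))
    refine ⟨Z1 * Z, ?_, ?_⟩
    · have e1 : wr (x :: v) = wr [x] + wr v := wr_append [x] v
      rw [e1, neg_add]
      exact hZ1.mul hZ
    · rw [ev_cons, map_mul, map_mul, hx0, hv, mul_assoc, ← mul_assoc Z0, hm]
      simp only [mul_assoc]

end Pool.Agent.HFW.PSC_aux

namespace Pool.Agent.HFW

open Pool.Agent.LibH11 Pool.Agent.IT PSC_aux

theorem t_PSC : TWC_Stmt → PSC_Stmt := by
  intro hT p n q hp Φ hΦ Ψ hΨ w hw hk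
  obtain ⟨h1, h2, h3, h4⟩ := hT p n hp Φ hΦ
  obtain ⟨Z, hZ, he⟩ := split Φ Ψ (tk p n) h3 hΨ w hw
  have h5 := gather (Φ (ev n w)) (perm (ev n w)) hk (tk p n) (h3 (ev n w)) h1 hZ
    (ev (pn p n) (tor p q)) (fun k => h2 k q)
  refine Relation.EqvGen.symm _ _ ?_
  have e1 : Ψ (ev n w) * ev (pn p n) (tor p q) =
      Φ (ev n w) * (Z * ev (pn p n) (tor p q)) := by rw [he, mul_assoc]
  have e2 : ev (pn p n) (cab p q w) =
      Φ (ev n w) * (tk p n 0 ^ (- wr w) * ev (pn p n) (tor p q)) := by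
    have e3 : q + p * (- wr w) = q - p * wr w := by ring
    rw [h4, e3, ← hΦ w hw, ← ev_append]
    rfl
  rw [e1, e2]
  exact h5

end Pool.Agent.HFW
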