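import Pool.Agent.HFW.Mods

/-!
HFW: assembly of the framed parallel and the closure of its product with a torus braid.
-/

set_option autoImplicit false

namespace Pool.Agent.HFW

open Pool.Agent.LibH11 Pool.Agent.IT

theorem t_PSI (hp : PARH_Stmt) (hR : PRB_Stmt) (hB : PSB_Stmt) (hC : PSC_Stmt) : PSI_Stmt := by
  intro p n q h1
  obtain ⟨Φ, hΦ⟩ := hp.1 p n h1
  obtain ⟨Ψ, hΨ⟩ := hB p n h1 Φ hΦ
  refine ⟨Ψ, ev (pn p n) (tor p q), ?_, hC p n q h1 Φ hΦ Ψ hΨ⟩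
  intro i
  rw [hΨ, map_mul, map_inv, (hR p n h1 Φ hΦ).1, inv_one, mul_one]
  exact (hR p n h1 Φ hΦ).2 i

end Pool.Agent.HFW
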