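import Pool.Agent.HFW.Mods

/-!
# HFW, module QTX: the `gl_N` invariants are values of the HOMFLY polynomial
-/

set_option autoImplicit false

namespace Pool.Agent.HFW

open Pool.Agent.LibH11 Pool.Agent.IT

namespace QTX_aux

/-- the skein relation of the quantum trace, over any commutative ring -/
theorem qtr_skein {R : Type*} [CommRing R] {n N : ℕ} (q a : Rˣ) (b : Br n) (i : Fin n) :
    (a : R) * qtr q a (rep (Fin N) q a n (b * sg i)).val -
      ((a⁻¹ : Rˣ) : R) * qtr q a (rep (Fin N) q a n (b * (sg i)⁻¹)).val =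
    zz q * qtr q a (rep (Fin N) q a n b).val := by
  have h1 : qtr q a (rep (Fin N) q a n (b * sg i)).val = ((a⁻¹ : Rˣ) : R) *
      qtr q a ((rep (Fin N) q a n b).val * op (q : R) (zz q) i.castSucc i.succ) := by
    rw [map_mul, rep_sg, Units.val_mul]
    simp only [opU]
    rw [mul_smul_comm, qtr_smul]
  have h2 : qtr q a (rep (Fin N) q a n (b * (sg i)⁻¹)).val = (a : R) *
      (qtr q a ((rep (Fin N) q a n b).val * op (q : R) (zz q) i.castSucc i.succ) -
        zz q * qtr q a (rep (Fin N) q a n b).val) := by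
    rw [map_mul, map_inv, rep_sg, Units.val_mul]
    change qtr q a ((rep (Fin N) q a n b).val * ((a : R) •
      (op (q : R) (zz q) i.castSucc i.succ - zz q • 1))) = _
    rw [mul_smul_comm, qtr_smul, mul_sub, qtr_sub, mul_smul_comm, mul_one, qtr_smul]
  rw [h1, h2, ← mul_assoc, ← mul_assoc, Units.mul_inv, Units.inv_mul, one_mul, one_mul,
    sub_sub_cancel]

theorem val_uq_pow (N : ℕ) : ((uq ^ N : KKˣ) : KK) =
    algebraMap (PowerSeries ℤ) KK ((aa N : (PowerSeries ℤ)ˣ) : PowerSeries ℤ) := by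
  unfold uq aa
  rw [← map_pow]
  rfl

theorem val_uq_pow_inv (N : ℕ) : (((uq ^ N)⁻¹ : KKˣ) : KK) =
    algebraMap (PowerSeries ℤ) KK (((aa N)⁻¹ : (PowerSeries ℤ)ˣ) : PowerSeries ℤ) := by
  unfold uq aa
  rw [← map_pow, ← map_inv]
  rfl

theorem sk_gf (N : ℕ) : Sk (uq ^ N) (algebraMap (PowerSeries ℤ) KK (zz qq)) (gf N) := by
  refine ⟨fun n x b => ?_, fun n b => ?_, fun n b => ?_, fun n b i => ?_⟩
  · exact congrArg (algebraMap (PowerSeries ℤ) KK) (qtr_conj qq (aa N) x b)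
  · exact congrArg (algebraMap (PowerSeries ℤ) KK) (qtr_stab qq (aa N) rfl b)
  · exact congrArg (algebraMap (PowerSeries ℤ) KK) (qtr_stabNeg qq (aa N) rfl b)
  · have h := congrArg (algebraMap (PowerSeries ℤ) KK)
      (qtr_skein (N := N) qq (aa N) b i)
    rw [map_sub, map_mul (algebraMap (PowerSeries ℤ) KK), map_mul (algebraMap (PowerSeries ℤ) KK),
      map_mul (algebraMap (PowerSeries ℤ) KK), ← val_uq_pow, ← val_uq_pow_inv] at h
    exact h

theorem phi_va (hz : ZNE_Stmt) (N : ℕ) (k : ℤ) :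
    phi hz N (va k) = (((uq ^ N) ^ k : KKˣ) : KK) := by
  unfold phi va
  rw [LaurentPolynomial.eval₂_T]

theorem phi_vz (hz : ZNE_Stmt) (N : ℕ) :
    phi hz N vz = algebraMap (PowerSeries ℤ) KK (zz qq) := by
  unfold phi vz
  rw [LaurentPolynomial.eval₂_C, LaurentPolynomial.eval₂_T, zpow_one]
  rfl

theorem sk_phi (hz : ZNE_Stmt) (P : (n : ℕ) → Br n → Coeffs) (hP : IsHomfly P) (N : ℕ) (c : KK) :
    Sk (uq ^ N) (algebraMap (PowerSeries ℤ) KK (zz qq)) (fun n b => c * phi hz N (P n b)) := by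
  refine ⟨fun n x b => ?_, fun n b => ?_, fun n b => ?_, fun n b i => ?_⟩
  · rw [hP.conj]
  · rw [hP.stabPos]
  · rw [hP.stabNeg]
  · have h := congrArg (phi hz N) (hP.skein n b i)
    rw [map_sub, map_mul, map_mul, map_mul, phi_va, phi_va, phi_vz, zpow_one, zpow_neg,
      zpow_one] at h
    linear_combination c * h

end QTX_aux

open QTX_aux in
theorem t_QTX : UNI_Stmt → QTX_Stmt := by
  intro hU hz P hP N n b
  have hz' : algebraMap (PowerSeries ℤ) KK (zz qq) ≠ 0 := hz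
  refine hU KK (uq ^ N) (algebraMap (PowerSeries ℤ) KK (zz qq))
    ((algebraMap (PowerSeries ℤ) KK (zz qq))⁻¹ * (((uq ^ N : KKˣ) : KK) -
      (((uq ^ N)⁻¹ : KKˣ) : KK))) ?_ ?_ (gf N) (fun n b => gf N 0 1 * phi hz N (P n b))
    (sk_gf N) (sk_phi hz P hP N (gf N 0 1)) ?_ n b
  · rw [← mul_assoc, mul_inv_cancel₀ hz', one_mul]
  · intro x y h
    exact mul_left_cancel₀ hz' h
  · show gf N 0 1 = gf N 0 1 * phi hz N (P 0 1)
    rw [hP.unknot, map_one, mul_one]

end Pool.Agent.HFW
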