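import Pool.Agent.HFW.Mods
import Pool.Agent.LibH11.Vanish
import Pool.Agent.LibH11.RMatrix

/-!
# HFW, module RED: skein functions stay in the additive groups `M n`
-/

set_option autoImplicit false

namespace Pool.Agent.HFW

open Pool.Agent.LibH11 Pool.Agent.IT

namespace RED_aux

theorem es_mul {n : ℕ} (x y : Br n) : es (x * y) = es x + es y := by
  unfold es
  rw [map_mul, toAdd_mul]

theorem es_inv {n : ℕ} (x : Br n) : es x⁻¹ = - es x := by
  unfold es
  rw [map_inv, toAdd_inv]

theorem es_one {n : ℕ} : es (1 : Br n) = 0 := by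
  unfold es
  rw [map_one, toAdd_one]

theorem es_sg {n : ℕ} (i : Fin n) : es (sg i) = 1 := by
  unfold es
  rw [expSum_sg, toAdd_ofAdd]

theorem es_incl {n : ℕ} (x : Br n) : es (incl x) = es x := by
  induction x using br_induction with
  | h1 => rw [map_one, es_one, es_one]
  | hs i => rw [LibH11.incl_sg, es_sg, es_sg]
  | hm x y hx hy => rw [map_mul, es_mul, es_mul, hx, hy]
  | hi x hx => rw [map_inv, es_inv, es_inv, hx]

theorem br_zero (y : Br 0) : y = 1 := by
  induction y using br_induction with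
  | h1 => rfl
  | hs i => exact i.elim0
  | hm x y hx hy => rw [hx, hy, one_mul]
  | hi x hx => rw [hx, inv_one]

/-- The normalised function. -/
def X {R : Type} [CommRing R] (a : Rˣ) (F : (n : ℕ) → Br n → R) (n : ℕ) (b : Br n) : R :=
  ((a ^ es b : Rˣ) : R) * F n b

theorem F_comm {R : Type} [CommRing R] {a : Rˣ} {z : R} {F : (n : ℕ) → Br n → R}
    (hF : Sk a z F) (n : ℕ) (x y : Br n) : F n (x * y) = F n (y * x) := by
  have h := hF.conj n x (y * x)
  rwa [← mul_assoc, mul_inv_cancel_right] at h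

theorem X_comm {R : Type} [CommRing R] {a : Rˣ} {z : R} {F : (n : ℕ) → Br n → R}
    (hF : Sk a z F) (n : ℕ) (x y : Br n) : X a F n (x * y) = X a F n (y * x) := by
  unfold X
  rw [F_comm hF, es_mul, es_mul, add_comm]

theorem X_skein {R : Type} [CommRing R] {a : Rˣ} {z : R} {F : (n : ℕ) → Br n → R}
    (hF : Sk a z F) (n : ℕ) (x y : Br n) (i : Fin n) :
    X a F n (x * sg i * y) - X a F n (x * (sg i)⁻¹ * y) = z * X a F n (x * y) := by
  have h := hF.skein n (y * x) i
  unfold X
  rw [F_comm hF n (x * sg i) y, F_comm hF n (x * (sg i)⁻¹) y, F_comm hF n x y, ← mul_assoc y,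
    ← mul_assoc y, es_mul, es_mul, es_mul, es_mul, es_mul, es_inv, es_sg]
  have e1 : a ^ (es x + 1 + es y) = a ^ (es x + es y) * a := by
    rw [show es x + 1 + es y = es x + es y + 1 by ring, zpow_add_one]
  have e2 : a ^ (es x + -1 + es y) = a ^ (es x + es y) * a⁻¹ := by
    rw [show es x + -1 + es y = es x + es y - 1 by ring, zpow_sub_one]
  rw [e1, e2, Units.val_mul, Units.val_mul]
  linear_combination ((a ^ (es x + es y) : Rˣ) : R) * h

theorem X_pos {R : Type} [CommRing R] {a : Rˣ} {z : R} {F : (n : ℕ) → Br n → R}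
    (hF : Sk a z F) (n : ℕ) (b : Br n) :
    X a F (n + 1) (incl b * sg (Fin.last n)) = (a : R) * X a F n b := by
  unfold X
  rw [hF.stabPos, es_mul, es_sg, es_incl, zpow_add_one, Units.val_mul]
  ring

theorem X_neg {R : Type} [CommRing R] {a : Rˣ} {z : R} {F : (n : ℕ) → Br n → R}
    (hF : Sk a z F) (n : ℕ) (b : Br n) :
    X a F (n + 1) (incl b * (sg (Fin.last n))⁻¹) = ((a⁻¹ : Rˣ) : R) * X a F n b := by
  unfold X
  rw [hF.stabNeg, es_mul, es_inv, es_sg, es_incl, ← sub_eq_add_neg, zpow_sub_one, Units.val_mul]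
  ring

theorem X_incl {R : Type} [CommRing R] {a : Rˣ} {z δ : R}
    (hδ : z * δ = (a : R) - ((a⁻¹ : Rˣ) : R)) (hz : ∀ x y : R, z * x = z * y → x = y)
    {F : (n : ℕ) → Br n → R} (hF : Sk a z F) (n : ℕ) (b : Br n) :
    X a F (n + 1) (incl b) = δ * X a F n b := by
  apply hz
  have h := X_skein hF (n + 1) (incl b) 1 (Fin.last n)
  rw [mul_one, mul_one, mul_one, X_pos hF, X_neg hF] at h
  rw [← h, ← sub_mul, ← hδ, mul_assoc]

end RED_aux

open RED_aux in
theorem t_RED (hS : SPN_Stmt) : RED_Stmt := by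
  intro R _ a z δ hδ hz F hF M hMz hMδ hMa h0 n
  have main : ∀ n b, X a F n b ∈ M n := by
    intro n
    induction n with
    | zero =>
      intro b
      rw [br_zero b]
      unfold X
      rw [es_one, zpow_zero, Units.val_one, one_mul]
      exact h0
    | succ n ih =>
      refine hS R z (M (n + 1)) (hMz (n + 1)) n (X a F (n + 1)) ?_ ?_ ?_
      · intro x y i
        exact X_skein hF (n + 1) x y i
      · intro x
        rw [X_incl hδ hz hF]
        exact hMδ n _ (ih x)
      · intro x y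
        rw [X_comm hF, ← mul_assoc, ← map_mul, X_pos hF]
        exact hMa n _ (ih (y * x))
  exact main n

end Pool.Agent.HFW
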