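import Pool.Agent.HFW.Mods
import Pool.Agent.LibH11.Vanish
import Pool.Agent.LibH11.RMatrix

/-!
# HFW, module SPN: the Hecke algebra `H_(n+1)` is `H_n + H_n σ_n H_n`
-/

set_option autoImplicit false

namespace Pool.Agent.HFW

open Pool.Agent.LibH11 Pool.Agent.IT

namespace SPN_aux

/-- The hypotheses on the function. -/
structure Hyp {R : Type} [CommRing R] (z : R) (S : AddSubgroup R) (n : ℕ) (G : Br (n + 1) → R) :
    Prop where
  hecke : ∀ (x y : Br (n + 1)) (i : Fin (n + 1)),
    G (x * sg i * y) - G (x * (sg i)⁻¹ * y) = z * G (x * y)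
  low : ∀ x : Br n, G (incl x) ∈ S
  mid : ∀ x y : Br n, G (incl x * sg (Fin.last n) * incl y) ∈ S

/-- The braid group on one strand is trivial. -/
theorem br_zero (y : Br 0) : y = 1 := by
  induction y using br_induction with
  | h1 => rfl
  | hs i => exact i.elim0
  | hm x y hx hy => rw [hx, hy, one_mul]
  | hi x hx => rw [hx, inv_one]

/-- Twice included braids commute with the last generator. -/
theorem comm_last {m : ℕ} (u : Br m) :
    incl (incl u) * sg (Fin.last (m + 1)) = sg (Fin.last (m + 1)) * (incl (incl u) : Br (m + 2)) := by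
  induction u using br_induction with
  | h1 => rw [map_one, map_one, one_mul, mul_one]
  | hs i =>
    rw [LibH11.incl_sg, LibH11.incl_sg]
    refine sg_comm _ _ ?_
    rw [Fin.val_castSucc, Fin.val_castSucc, Fin.val_last]
    have := i.isLt
    omega
  | hm x y hx hy =>
    rw [map_mul, map_mul, mul_assoc, hy, ← mul_assoc, hx, mul_assoc]
  | hi x hx =>
    rw [map_inv, map_inv]
    exact (Commute.inv_left (show Commute _ _ from hx)).eq

/-- The value at `incl x * σ * σ`. -/
theorem sq_mem {R : Type} [CommRing R] {z : R} {S : AddSubgroup R} (hz : ∀ x ∈ S, z * x ∈ S)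
    {n : ℕ} {G : Br (n + 1) → R} (hG : Hyp z S n G) (x : Br n) :
    G (incl x * sg (Fin.last n) * sg (Fin.last n)) ∈ S := by
  have h1 := hG.hecke (incl x * sg (Fin.last n)) 1 (Fin.last n)
  rw [mul_one, mul_one, mul_one, mul_inv_cancel_right] at h1
  have h2 := hG.mid x 1
  rw [map_one, mul_one] at h2
  rw [sub_eq_iff_eq_add.1 h1]
  exact S.add_mem (hz _ h2) (hG.low x)

/-- Multiplication by a generator on the right, from the case of the last generator. -/
theorem shift {R : Type} [CommRing R] {z : R} {S : AddSubgroup R}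
    {n : ℕ} {G : Br (n + 1) → R} (hG : Hyp z S n G)
    (hl : ∀ x y : Br n, G (incl x * sg (Fin.last n) * incl y * sg (Fin.last n)) ∈ S)
    (i : Fin (n + 1)) : Hyp z S n (fun x => G (x * sg i)) := by
  refine ⟨?_, ?_, ?_⟩
  · intro x y j
    have h := hG.hecke x (y * sg i) j
    simpa only [mul_assoc] using h
  · intro x
    refine Fin.lastCases ?_ (fun k => ?_) i
    · have h := hG.mid x 1
      rwa [map_one, mul_one] at h
    · rw [← LibH11.incl_sg, ← map_mul]
      exact hG.low _
  · intro x y
    refine Fin.lastCases ?_ (fun k => ?_) i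
    · exact hl x y
    · rw [← LibH11.incl_sg, mul_assoc, ← map_mul]
      exact hG.mid _ _

/-- All braids, if generators may be multiplied on the right. -/
theorem all {R : Type} [CommRing R] {z : R} {S : AddSubgroup R} (hz : ∀ x ∈ S, z * x ∈ S)
    {n : ℕ} (hs : ∀ G : Br (n + 1) → R, Hyp z S n G → ∀ i, Hyp z S n (fun x => G (x * sg i)))
    (b : Br (n + 1)) : ∀ G : Br (n + 1) → R, Hyp z S n G → G b ∈ S := by
  have h1 : ∀ c : Br (n + 1), (∀ G : Br (n + 1) → R, Hyp z S n G → G c ∈ S) →
      ∀ i, (∀ G : Br (n + 1) → R, Hyp z S n G → G (c * sg i) ∈ S) ∧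
        ∀ G : Br (n + 1) → R, Hyp z S n G → G (c * (sg i)⁻¹) ∈ S := by
    intro c hc i
    have h2 : ∀ G : Br (n + 1) → R, Hyp z S n G → G (c * sg i) ∈ S := fun G hG =>
      hc _ (hs G hG i)
    refine ⟨h2, fun G hG => ?_⟩
    have h3 := hG.hecke c 1 i
    rw [mul_one, mul_one, mul_one] at h3
    have h4 : G (c * (sg i)⁻¹) = G (c * sg i) - z * G c := by
      rw [← h3]
      ring
    rw [h4]
    exact S.sub_mem (h2 G hG) (hz _ (hc G hG))
  have key : (∀ c : Br (n + 1), (∀ G : Br (n + 1) → R, Hyp z S n G → G c ∈ S) →
      ∀ G : Br (n + 1) → R, Hyp z S n G → G (c * b) ∈ S) ∧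
      (∀ c : Br (n + 1), (∀ G : Br (n + 1) → R, Hyp z S n G → G c ∈ S) →
      ∀ G : Br (n + 1) → R, Hyp z S n G → G (c * b⁻¹) ∈ S) := by
    induction b using br_induction with
    | h1 =>
      refine ⟨fun c hc G hG => ?_, fun c hc G hG => ?_⟩
      · rw [mul_one]
        exact hc G hG
      · rw [inv_one, mul_one]
        exact hc G hG
    | hs i => exact ⟨fun c hc => (h1 c hc i).1, fun c hc => (h1 c hc i).2⟩
    | hm x y hx hy =>
      refine ⟨fun c hc => ?_, fun c hc => ?_⟩
      · have h := hy.1 (c * x) (hx.1 c hc)
        rwa [mul_assoc] at h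
      · have h := hx.2 (c * y⁻¹) (hy.2 c hc)
        rwa [mul_assoc, ← mul_inv_rev] at h
    | hi x hx =>
      refine ⟨hx.2, ?_⟩
      rw [inv_inv]
      exact hx.1
  intro G hG
  have h := key.1 1 (fun G hG => by
    have h2 := hG.low 1
    rwa [map_one] at h2) G hG
  rwa [one_mul] at h

/-- The theorem for the structure. -/
theorem main {R : Type} [CommRing R] {z : R} {S : AddSubgroup R} (hz : ∀ x ∈ S, z * x ∈ S) :
    ∀ (n : ℕ) (b : Br (n + 1)) (G : Br (n + 1) → R), Hyp z S n G → G b ∈ S := by
  intro n
  induction n with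
  | zero =>
    intro b
    refine all hz (fun G hG i => shift hG (fun x y => ?_) i) b
    rw [br_zero y, map_one, mul_one]
    exact sq_mem hz hG x
  | succ m ih =>
    intro b
    refine all hz (fun G hG i => shift hG (fun x y => ?_) i) b
    refine ih y (fun y => G (incl x * sg (Fin.last (m + 1)) * incl y * sg (Fin.last (m + 1))))
      ⟨?_, ?_, ?_⟩
    · intro a c j
      have h := hG.hecke (incl x * sg (Fin.last (m + 1)) * incl a)
        (incl c * sg (Fin.last (m + 1))) j.castSucc
      rw [← LibH11.incl_sg] at h
      simpa only [map_mul, map_inv, mul_assoc] using h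
    · intro u
      have h : incl x * sg (Fin.last (m + 1)) * incl (incl u) * sg (Fin.last (m + 1)) =
          incl (x * incl u) * sg (Fin.last (m + 1)) * sg (Fin.last (m + 1)) := by
        rw [mul_assoc (incl x) (sg (Fin.last (m + 1))) (incl (incl u)), ← comm_last u, map_mul,
          mul_assoc (incl x) (incl (incl u)) (sg (Fin.last (m + 1)))]
      change G (incl x * sg (Fin.last (m + 1)) * incl (incl u) * sg (Fin.last (m + 1))) ∈ S
      rw [h]
      exact sq_mem hz hG _
    · intro u v
      have hb : (sg (Fin.last (m + 1)) * sg (Fin.last m).castSucc * sg (Fin.last (m + 1)) :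
          Br (m + 2)) =
          sg (Fin.last m).castSucc * sg (Fin.last (m + 1)) * sg (Fin.last m).castSucc := by
        rw [sg_braid (Fin.last m).castSucc (Fin.last (m + 1))]
        rw [Fin.val_castSucc, Fin.val_last, Fin.val_last]
      have h : incl x * sg (Fin.last (m + 1)) * incl (incl u * sg (Fin.last m) * incl v) *
          sg (Fin.last (m + 1)) =
          incl (x * incl u * sg (Fin.last m)) * sg (Fin.last (m + 1)) *
            incl (sg (Fin.last m) * incl v) := by
        rw [map_mul, map_mul, map_mul, map_mul, map_mul, LibH11.incl_sg]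
        calc incl x * sg (Fin.last (m + 1)) *
              (incl (incl u) * sg (Fin.last m).castSucc * incl (incl v)) * sg (Fin.last (m + 1))
            = incl x * (sg (Fin.last (m + 1)) * incl (incl u)) * sg (Fin.last m).castSucc *
                (incl (incl v) * sg (Fin.last (m + 1))) := by
              simp only [mul_assoc]
          _ = incl x * (incl (incl u) * sg (Fin.last (m + 1))) * sg (Fin.last m).castSucc *
                (sg (Fin.last (m + 1)) * incl (incl v)) := by
              rw [← comm_last u, comm_last v]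
          _ = incl x * incl (incl u) *
                (sg (Fin.last (m + 1)) * sg (Fin.last m).castSucc * sg (Fin.last (m + 1))) *
                incl (incl v) := by
              simp only [mul_assoc]
          _ = incl x * incl (incl u) *
                (sg (Fin.last m).castSucc * sg (Fin.last (m + 1)) * sg (Fin.last m).castSucc) *
                incl (incl v) := by
              rw [hb]
          _ = _ := by
              simp only [mul_assoc]
      change G (incl x * sg (Fin.last (m + 1)) * incl (incl u * sg (Fin.last m) * incl v) *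
          sg (Fin.last (m + 1))) ∈ S
      rw [h]
      exact hG.mid _ _

end SPN_aux

theorem t_SPN : SPN_Stmt := by
  intro R _ z S hz n G h1 h2 h3 b
  exact SPN_aux.main hz n b G ⟨h1, h2, h3⟩

end Pool.Agent.HFW
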