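import Pool.Agent.HFW.Mods

/-!
HFW: braids on at most three strands can be stabilised to three strands.
-/

set_option autoImplicit false

namespace Pool.Agent.HFW

open Pool.Agent.LibH11 Pool.Agent.IT

theorem sta_step (n : ℕ) (w : Word) (hw : Bd n w) (h : IsKnot (ev n w)) :
    ∃ u : Word, Bd (n + 1) u ∧ ∃ h2 : IsKnot (ev (n + 1) u),
      closure (ev (n + 1) u) h2 = closure (ev n w) h := by
  have hm : meq (n + 1) (w ++ [(n, true)]) n w := by
    have := meq_destab n w [] true hw (bd_nil n)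
    rwa [List.append_nil, List.append_nil] at this
  refine ⟨w ++ [(n, true)], ?_, hm.isKnot.mpr h, hm.closure_eq _ _⟩
  refine (hw.mono (Nat.le_succ n)).append ?_
  intro x hx
  rw [List.mem_singleton] at hx
  rw [hx]
  exact Nat.lt_succ_self n

theorem t_STA : STA_Stmt := by
  intro n' w' hn hw h'
  rcases n' with _ | _ | _ | n'
  · obtain ⟨u, hu, h2, e⟩ := sta_step 0 w' hw h'
    obtain ⟨v, hv, h3, e3⟩ := sta_step 1 u hu h2
    exact ⟨ev 2 v, h3, e3.trans e⟩
  · obtain ⟨u, hu, h2, e⟩ := sta_step 1 w' hw h'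
    exact ⟨ev 2 u, h2, e⟩
  · exact ⟨ev 2 w', h', rfl⟩
  · omega

end Pool.Agent.HFW
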