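import Pool.Agent.HFW.Mods

/-!
# HFW, module TOR: torus braids are powers
-/

set_option autoImplicit false

namespace Pool.Agent.HFW

open Pool.Agent.LibH11 Pool.Agent.IT

namespace TOR_aux

theorem shw_append (k : ℕ) (u v : Word) : shw k (u ++ v) = shw k u ++ shw k v := by
  unfold shw
  rw [List.map_append]

theorem shw_rep (k m : ℕ) (w : Word) :
    shw k (List.replicate m w).flatten = (List.replicate m (shw k w)).flatten := by
  induction m with
  | zero => rfl
  | succ m ih =>
    rw [List.replicate_succ, List.replicate_succ, List.flatten_cons, List.flatten_cons, shw_append,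
      ih]

theorem shw_iw (k : ℕ) (w : Word) : shw k (iw w) = iw (shw k w) := by
  unfold shw iw
  rw [List.map_reverse, List.map_map, List.map_map]
  rfl

end TOR_aux

open TOR_aux in
theorem t_TOR : TOR_Stmt := by
  intro N s p r
  unfold tor
  split_ifs with h
  · rw [shw_rep, ev_replicate]
    obtain ⟨k, rfl⟩ := Int.eq_ofNat_of_zero_le h
    simp
  · rw [shw_rep, shw_iw, ev_replicate, ev_iw]
    obtain ⟨k, hk⟩ := Int.eq_ofNat_of_zero_le (show 0 ≤ -r by omega)
    have hr : r = -(k : ℤ) := by
      rw [← Int.ofNat_eq_natCast] at *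
      omega
    rw [hr]
    simp

end Pool.Agent.HFW
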