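import Pool.Agent.HFW.Mods
import Pool.Agent.IT.Prm

/-!
# HFW, module TWC: the full twists of the blocks
-/

set_option autoImplicit false

namespace Pool.Agent.HFW

open Pool.Agent.LibH11 Pool.Agent.IT Pool.Agent.IT.PRM

namespace TWC_aux

theorem shw_zero (w : Word) : shw 0 w = w := by
  unfold shw
  conv_rhs => rw [← List.map_id w]
  apply List.map_congr_left
  rintro ⟨i, e⟩ _
  simp

theorem bd_shw {s p : ℕ} {r : ℤ} {x : ℕ × Bool} (hx : x ∈ shw s (tor p r)) :
    s ≤ x.1 ∧ x.1 + 1 < s + p := by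
  unfold shw at hx
  obtain ⟨y, hy, rfl⟩ := List.mem_map.1 hx
  have h := bd_tor p r y hy
  refine ⟨Nat.le_add_left _ _, ?_⟩
  show y.1 + s + 1 < s + p
  omega

/-- blocks at a distance -/
theorem far (N p s t : ℕ) (r q : ℤ) (h : s + p ≤ t) :
    Commute (ev N (shw s (tor p r))) (ev N (shw t (tor p q))) := by
  refine ev_far N _ _ fun x hx y hy => Or.inl ?_
  have h1 := bd_shw hx
  have h2 := bd_shw hy
  omega

theorem mul_lt' {p k l : ℕ} (h : k < l) : p * k + p ≤ p * l := by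
  have h1 : p * (k + 1) ≤ p * l := Nat.mul_le_mul_left p h
  rw [Nat.mul_add, Nat.mul_one] at h1
  exact h1

/-- the torus braid is a power -/
theorem tor_pow (hTOR : TOR_Stmt) (N p : ℕ) (r : ℤ) :
    ev N (tor p r) = ev N (shw 0 ((List.range (p - 1)).map fun i => (i, true))) ^ r := by
  have h := hTOR N 0 p r
  rwa [shw_zero (tor p r)] at h

theorem tk_zero (hTOR : TOR_Stmt) (p n : ℕ) :
    tk p n 0 = ev (pn p n) (shw 0 ((List.range (p - 1)).map fun i => (i, true))) ^ (p : ℤ) := by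
  have h : tk p n 0 = ev (pn p n) (shw 0 (tor p p)) := rfl
  rw [h, hTOR]

end TWC_aux

open TWC_aux

theorem t_TWC : TOR_Stmt → SLD_Stmt → TWC_Stmt := by
  intro hTOR hSLD p n hp Φ hΦ
  refine ⟨fun k l => ?_, fun k q => ?_, fun b k => ?_, fun m q => ?_⟩
  · rcases lt_trichotomy (k : ℕ) (l : ℕ) with h | h | h
    · exact far _ _ _ _ _ _ (mul_lt' h)
    · rw [Fin.ext h]
    · exact (far _ _ _ _ _ _ (mul_lt' h)).symm
  · rcases Nat.eq_zero_or_pos (k : ℕ) with h | h
    · have h0 : k = 0 := Fin.ext h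
      rw [h0, tk_zero hTOR, tor_pow hTOR]
      exact (Commute.refl _).zpow_zpow _ _
    · have h1 := far (pn p n) p 0 (p * (k : ℕ)) q p (by
        have := mul_lt' (p := p) h
        omega)
      rw [shw_zero (tor p q)] at h1
      exact h1.symm
  · obtain ⟨w, hw, rfl⟩ := exists_word b
    rw [← hΦ w hw]
    exact hSLD p n hp w hw k (tor p p) (bd_tor p p)
  · rw [tk_zero hTOR, tor_pow hTOR, tor_pow hTOR, ← zpow_mul, ← zpow_add, add_comm]

end Pool.Agent.HFW
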