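import Pool.Agent.HFW.Mods

/-!
# HFW, module UNI (helper20): uniqueness
-/

set_option autoImplicit false

namespace Pool.Agent.HFW

open Pool.Agent.LibH11 Pool.Agent.IT

theorem t_UNI : RED_Stmt → UNI_Stmt := by
  intro h R _ a z δ hz hinj F G hF hG h0 n b
  have hsk : Sk a z (fun n b => F n b - G n b) :=
    { conj := fun n x b => by simp only [hF.conj, hG.conj]
      stabPos := fun n b => by simp only [hF.stabPos, hG.stabPos]
      stabNeg := fun n b => by simp only [hF.stabNeg, hG.stabNeg]
      skein := fun n b i => by linear_combination hF.skein n b i - hG.skein n b i }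
  have h1 := h R a z δ hz hinj _ hsk (fun _ => ⊥)
    (fun n x hx => by
      rw [AddSubgroup.mem_bot] at hx ⊢
      rw [hx, mul_zero])
    (fun n x hx => by
      rw [AddSubgroup.mem_bot] at hx ⊢
      rw [hx, mul_zero])
    (fun n x hx => by
      rw [AddSubgroup.mem_bot] at hx ⊢
      rw [hx, mul_zero])
    (by
      rw [AddSubgroup.mem_bot]
      exact sub_eq_zero.2 h0) n b
  rw [AddSubgroup.mem_bot] at h1
  exact sub_eq_zero.1 ((Units.mul_right_eq_zero _).1 h1)

end Pool.Agent.HFW
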