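import Pool.Agent.HFW.Mods

/-!
HFW: the coefficients of the `gl_N` invariant of `Ψ b * c` vanish on braids with many double points.
-/

set_option autoImplicit false

namespace Pool.Agent.HFW

open Pool.Agent.LibH11 Pool.Agent.IT PowerSeries

theorem exists_of_red_eq_zero {m N : ℕ} (Z : EN m N) (h : red Z = 0) :
    ∃ Y : EN m N, Z = (X : PowerSeries ℤ) • Y := by
  have h1 : ∀ s t, ∃ y, LinearMap.toMatrix' Z s t = X * y := by
    intro s t
    have h2 := congrFun (congrFun h s) t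
    exact X_dvd_iff.mpr h2
  choose Y hY using h1
  refine ⟨Matrix.toLin' (Matrix.of Y), ?_⟩
  apply LinearMap.toMatrix'.injective
  rw [map_smul, LinearMap.toMatrix'_toLin']
  ext s t : 2
  rw [hY s t]
  rfl

theorem van_diff {n m : ℕ} (N : ℕ) (Ψ : Br n →* Br m) (i : Fin n)
    (hi : perm (Ψ (sg i)) * perm (Ψ (sg i)) = 1) :
    ∃ Y : EN m N, (rp N m (Ψ (sg i))).val - (rp N m (Ψ (sg i)⁻¹)).val =
      (X : PowerSeries ℤ) • Y := by
  apply exists_of_red_eq_zero
  have h1 : perm (Ψ (sg i)⁻¹) = perm (Ψ (sg i)) := by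
    rw [map_inv, map_inv]
    exact inv_eq_of_mul_eq_one_left hi
  rw [red_sub, red_rp, red_rp, h1, sub_self]

theorem van_gen {n m N : ℕ} (Ψ : Br n →* Br m)
    (hΨ : ∀ i : Fin n, perm (Ψ (sg i)) * perm (Ψ (sg i)) = 1) : ∀ (k : ℕ) (A C : EN m N),
    Vanishes (k + 1) (fun b : Br n => coeff k (tr' (A * (rp N m (Ψ b)).val * C))) := by
  have key : ∀ (A C : EN m N) (a : Br n) (i : Fin n), ∃ B : EN m N, ∀ x : Br n,
      tr' (A * (rp N m (Ψ (a * sg i * x))).val * C) -
        tr' (A * (rp N m (Ψ (a * (sg i)⁻¹ * x))).val * C) =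
        X * tr' (B * (rp N m (Ψ x)).val * C) := by
    intro A C a i
    obtain ⟨Y, hY⟩ := van_diff N Ψ i (hΨ i)
    refine ⟨A * (rp N m (Ψ a)).val * Y, fun x => ?_⟩
    rw [← qtr_sub, ← qtr_smul]
    congr 1
    rw [map_mul Ψ, map_mul Ψ, map_mul Ψ, map_mul Ψ, map_mul, map_mul, map_mul, map_mul,
      Units.val_mul, Units.val_mul, Units.val_mul, Units.val_mul, ← sub_mul, ← mul_sub,
      ← sub_mul, ← mul_sub, hY]
    simp only [mul_smul_comm, smul_mul_assoc, mul_assoc]
  intro k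
  induction k with
  | zero =>
    intro A C a i x
    obtain ⟨B, hB⟩ := key A C a i
    simp only
    rw [← map_sub, hB, coeff_zero_X_mul]
  | succ k ih =>
    intro A C a i
    obtain ⟨B, hB⟩ := key A C a i
    refine (congrArg (Vanishes (k + 1)) ?_).mp (ih B C)
    funext x
    rw [← map_sub, hB, coeff_succ_X_mul]

theorem t_VAN : VAN_Stmt := by
  intro n m N k Ψ c hΨ
  have h := van_gen (N := N) Ψ hΨ k 1 (rp N m c).val
  refine (congrArg (Vanishes (k + 1)) ?_).mp h
  funext b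
  rw [one_mul, map_mul, Units.val_mul]

end Pool.Agent.HFW
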