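import Pool.Agent.HFW.Mods

/-!
# HFW: module ZNE
-/

set_option autoImplicit false

namespace Pool.Agent.HFW

open Pool.Agent.LibH11 Pool.Agent.IT

/-- ZNE: `q - q⁻¹` is not zero in the fraction field. -/
theorem t_ZNE : ZNE_Stmt := by
  unfold ZNE_Stmt
  intro h
  have h1 : zz qq = 0 := by
    apply IsFractionRing.injective (PowerSeries ℤ) KK
    rw [h, map_zero]
  have h2 : PowerSeries.coeff 1 (zz qq) = 2 := by
    unfold zz
    rw [map_sub, c1_qq, c1_qq_inv]
    norm_num
  rw [h1, map_zero] at h2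
  norm_num at h2

end Pool.Agent.HFW
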