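import Pool.Agent.HFW.BND2
import Pool.Agent.HFW.PSI
import Pool.Agent.HFW.SPN
import Pool.Agent.HFW.RED
import Pool.Agent.HFW.UNI
import Pool.Agent.HFW.MFW
import Pool.Agent.HFW.ZNE
import Pool.Agent.HFW.QTX
import Pool.Agent.HFW.DIM
import Pool.Agent.HFW.INJ
import Pool.Agent.HFW.TOR
import Pool.Agent.HFW.TWC
import Pool.Agent.HFW.PRB
import Pool.Agent.HFW.PSB
import Pool.Agent.HFW.PSC
import Pool.Agent.HFW.VAN
import Pool.Agent.HFW.FTC
import Pool.Agent.HFW.STA
import Pool.Agent.HFW.EXI
import Pool.Agent.IT.Top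
import Pool.Agent.T3.Final4
import Pool.Agent.T3.COEF

/-!
Finite type invariants recognise the closed braids on three strands among all knots for which the
HOMFLY polynomial of the knot or of a cable decides whether the braid index is at most 3: all
modules together.
-/

set_option autoImplicit false

namespace Pool.Agent.HFW

open Pool.Agent.LibH11 Pool.Agent.IT
open Pool.Agent.T3 (rev)

theorem red_all : RED_Stmt := t_RED t_SPN

theorem twc_all : TWC_Stmt := t_TWC t_TOR topSld

theorem psi_all : PSI_Stmt := t_PSI topParh t_PRB (t_PSB twc_all) (t_PSC twc_all)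

theorem ftc_all : FTC_Stmt := t_FTC psi_all t_VAN topCwd

/-- The HOMFLY polynomial exists. -/
theorem exists_homfly : ∃ P : (n : ℕ) → Br n → Coeffs, IsHomfly P :=
  t_EXI red_all t_INJ t_DIM t_ZNE

theorem not_exceeds_all (n n' : ℕ) (w w' : Word) (hw : Bd n w) (hw' : Bd n' w')
    (h : IsKnot (ev n w)) (h' : IsKnot (ev n' w'))
    (hv : ∀ v : Knot → ℂ, IsFiniteType v → v (closure (ev n w) h) = v (closure (ev n' w') h')) :
    ¬ Exceeds (n + 1) n' w' :=
  not_exceeds (t_MFW red_all) (t_QTX (t_UNI red_all)) t_DIM t_INJ t_ZNE ftc_all n n' w w' hw hw'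
    h h' hv

theorem recognize (A : Type*) [AddCommGroup A] [Nontrivial A] (b : Br 2) (h : IsKnot b)
    (n : ℕ) (w : Word) (hw : Bd n w) (h' : IsKnot (ev n w)) (hd : n ≤ 2 ∨ Exceeds 3 n w)
    (hv : ∀ v : Knot → A, IsFiniteType v → v (closure b h) = v (closure (ev n w) h')) :
    closure b h = closure (ev n w) h' ∨
      ∃ hr : IsKnot (rev b), closure (rev b) hr = closure (ev n w) h' := by
  have hc := T3.agree_of_agree A hv
  rcases hd with hn | hd
  · obtain ⟨b', hb', e⟩ := t_STA n w hn hw h'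
    rw [← e] at hc ⊢
    exact T3.fin_all4 b b' h hb' hc
  · exfalso
    obtain ⟨u, hu, rfl⟩ := exists_word b
    exact not_exceeds_all 2 n u w hu hw h h' hc hd

end Pool.Agent.HFW
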