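import Pool.Agent.HFW.Stmts
import Pool.Agent.IT.TopStmts
import Pool.Agent.LibH11.GlTwist

/-!
# HFW: statements of the modules

Every module proves one statement `XXX_Stmt` as a theorem `t_XXX` (with the hypotheses named in the
doc string, in this order). Paper proofs are in the doc strings.
-/

set_option autoImplicit false

namespace Pool.Agent.HFW

open Pool.Agent.LibH11 Pool.Agent.IT

/-! ### Skein functions over any commutative ring -/

/-- Markov invariance and the skein relation `a F(+) - a⁻¹ F(-) = z F(0)` over any commutative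
ring. -/
structure Sk {R : Type} [CommRing R] (a : Rˣ) (z : R) (F : (n : ℕ) → Br n → R) : Prop where
  conj : ∀ (n : ℕ) (x b : Br n), F n (x * b * x⁻¹) = F n b
  stabPos : ∀ (n : ℕ) (b : Br n), F (n + 1) (incl b * sg (Fin.last n)) = F n b
  stabNeg : ∀ (n : ℕ) (b : Br n), F (n + 1) (incl b * (sg (Fin.last n))⁻¹) = F n b
  skein : ∀ (n : ℕ) (b : Br n) (i : Fin n),
    (a : R) * F n (b * sg i) - ((a⁻¹ : Rˣ) : R) * F n (b * (sg i)⁻¹) = z * F n b

/-- The exponent sum. -/
def es {n : ℕ} (b : Br n) : ℤ := Multiplicative.toAdd (expSum b)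

/-- SPN : the Hecke algebra `H_(n+1)` is `H_n + H_n σ_n H_n`, in the language of functions.
PROOF. Induction on `n`. Let `T` be the set of the `b` such that `G b ∈ S` for ALL functions `G` with
the hypotheses (for the fixed `z`, `S`). `1 ∈ T` (`1 = incl 1`). Let `b ∈ T` and `i : Fin (n + 1)`; then `b σ_i ∈ T`:
the function `G' x = G (x σ_i)` satisfies the first hypothesis; `G' (incl x) ∈ S`: if `i` is not the last
index then `incl x * σ_i = incl (x * σ_i')`, otherwise it is `incl x * σ_n * incl 1`. And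
`G' (incl x * σ_n * incl y) = G (incl x * σ_n * incl y * σ_i) ∈ S`: clear if `i` is not the last index. If it is:
for `n = 0` the group `Br 0` is trivial (`exists_word`: `Bd 0 w` implies `w = []`), `y = 1`, and the Hecke
relation gives `G (w σ σ) = G (w) + z G (w σ)` (take `x := w σ`, `y := 1`). For `n = m + 1` apply the induction
hypothesis to the function `y ↦ G (incl x * σ_n * incl y * σ_n)` on `Br (m + 1)`: for `y = incl u` the element
`incl (incl u)` commutes with `σ_n`, so the value is `G (incl (x * incl u) σ_n σ_n)`, as before; for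
`y = incl u * σ_m * incl v`: `incl (incl u)`, `incl (incl v)` commute with `σ_n` and `σ_n σ_m σ_n = σ_m σ_n σ_m`, so
the value is `G (incl (x * incl u * σ_m) * σ_n * incl (σ_m * incl v)) ∈ S`. Then `b (σ_i)⁻¹ ∈ T`:
`G (b (σ_i)⁻¹) = G (b σ_i) - z G (b)` (first hypothesis with `x := b`, `y := 1`). So `T` is everything
(`br_induction` for the statement: for all `c ∈ T`, `c * b ∈ T`; or `Subgroup.closure_induction_right`, or words:
`exists_word` and induction on the reversed list). -/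
def SPN_Stmt : Prop := ∀ (R : Type) [CommRing R] (z : R) (S : AddSubgroup R),
  (∀ x ∈ S, z * x ∈ S) → ∀ (n : ℕ) (G : Br (n + 1) → R),
  (∀ (x y : Br (n + 1)) (i : Fin (n + 1)),
    G (x * sg i * y) - G (x * (sg i)⁻¹ * y) = z * G (x * y)) →
  (∀ x : Br n, G (incl x) ∈ S) →
  (∀ x y : Br n, G (incl x * sg (Fin.last n) * incl y) ∈ S) → ∀ b, G b ∈ S

/-- RED (uses `SPN_Stmt`). PROOF. `X n b = a ^ (es b) * F n b` satisfies: `X (x * y) = X (y * x)`
(conj with `x`, and `es` is a homomorphism), `X (x σ_i y) - X (x σ_i⁻¹ y) = z X (x y)` (skein for `b = y x`,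
multiplied by the right power of `a`), `X (n+1) (incl b * σ_n) = a X n b`,
`X (n+1) (incl b * σ_n⁻¹) = a⁻¹ X n b` (`es (incl b) = es b`), so `z X (n+1) (incl b) = (a - a⁻¹) X n b` and
`X (n+1) (incl b) = δ X n b`. Induction on `n`: `n = 0`: `Br 0` is trivial. Step: SPN with `S = M (n+1)`,
`G = X (n+1)`: `X (incl x) = δ X n x`, `X (incl x * σ_n * incl y) = X (incl (y * x) * σ_n) = a X n (y * x)`. -/
def RED_Stmt : Prop := ∀ (R : Type) [CommRing R] (a : Rˣ) (z δ : R), z * δ = (a : R) - ((a⁻¹ : Rˣ) : R) →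
  (∀ x y : R, z * x = z * y → x = y) → ∀ (F : (n : ℕ) → Br n → R), Sk a z F →
  ∀ M : ℕ → AddSubgroup R, (∀ n, ∀ x ∈ M n, z * x ∈ M n) → (∀ n, ∀ x ∈ M n, δ * x ∈ M (n + 1)) →
  (∀ n, ∀ x ∈ M n, (a : R) * x ∈ M (n + 1)) → F 0 1 ∈ M 0 →
  ∀ (n : ℕ) (b : Br n), ((a ^ es b : Rˣ) : R) * F n b ∈ M n

/-- UNI (uses `RED_Stmt`): uniqueness. PROOF. `F - G` satisfies `Sk`, RED with `M n = ⊥`; `a ^ e` is a
unit. -/
def UNI_Stmt : Prop := ∀ (R : Type) [CommRing R] (a : Rˣ) (z δ : R),
  z * δ = (a : R) - ((a⁻¹ : Rˣ) : R) → (∀ x y : R, z * x = z * y → x = y) →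
  ∀ F G : (n : ℕ) → Br n → R, Sk a z F → Sk a z G → F 0 1 = G 0 1 → ∀ (n : ℕ) (b : Br n), F n b = G n b

/-- MFW (uses `RED_Stmt`): the Morton-Franks-Williams inequality. PROOF. `R = Coeffs`, `a = T 1` (unit with
inverse `T (-1)`), `z = vz`, `δ = C (T (-1)) * (T 1 - T (-1))`; `IsHomfly P` is `Sk` and `P 0 1 = 1`. `M n` = the `f` with
`f.coeff i = 0` for `i` with `n < |i|`. Multiplication by `C c` does not change the exponents, by `T k` it
shifts them by `k`. RED: all exponents of `T (es b) * P n b` are in `[-n, n]`, so those of `P n b` are in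
`[-n - es b, n - es b]`. -/
def MFW_Stmt : Prop := ∀ P : (n : ℕ) → Br n → Coeffs, IsHomfly P → ∀ (n : ℕ) (b : Br n) (i j : ℤ),
  (P n b).coeff i ≠ 0 → (P n b).coeff j ≠ 0 → j - i ≤ 2 * (n : ℤ)

/-! ### Specialisation to the `gl_N` invariants -/

/-- The fraction field of the power series. -/
abbrev KK : Type := FractionRing (PowerSeries ℤ)

/-- `q = 1 + X` in the fraction field. -/
noncomputable def uq : KKˣ := Units.map (algebraMap (PowerSeries ℤ) KK).toMonoidHom qq

/-- ZNE: `q - q⁻¹ ≠ 0` in the fraction field. PROOF. `algebraMap` is injective; the coefficient of `X` in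
`q - q⁻¹` is `2` (`c1_qq`, `c1_qq_inv` in LibH11/GlTwist.lean). -/
def ZNE_Stmt : Prop := algebraMap (PowerSeries ℤ) KK (zz qq) ≠ 0

/-- The homomorphism `a ↦ q ^ N`, `z ↦ q - q⁻¹`. -/
noncomputable def phi (hz : ZNE_Stmt) (N : ℕ) : Coeffs →+* KK :=
  LaurentPolynomial.eval₂ (LaurentPolynomial.eval₂ (Int.castRingHom KK) (Units.mk0 _ hz)) (uq ^ N)

/-- The `gl_N` invariant of a braid, in the fraction field. -/
noncomputable def gf (N n : ℕ) (b : Br n) : KK :=
  algebraMap (PowerSeries ℤ) KK (tr' (rp N n b).val)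

/-- QTX (uses `UNI_Stmt`). PROOF. `F = gf N` satisfies `Sk (uq ^ N) (q - q⁻¹)`: conj, stabPos, stabNeg are
`qtr_conj`, `qtr_stab`, `qtr_stabNeg` (LibH11.QTrace, with `a = aa N = qq ^ N`), and the skein relation:
`rep (sg i) = a⁻¹ • op`, `rep (sg i)⁻¹ = a • (op - z)` (`opU`, RMatrix), so
`a tr (b σ) - a⁻¹ tr (b σ⁻¹) = tr (b op) - tr (b (op - z)) = z tr (b)` (`qtr_smul`, `qtr_sub`). The other side,
`G n b = gf N 0 1 * phi N (P n b)`, satisfies `Sk` since `phi N (va 1) = q ^ N`, `phi N (va (-1)) = q ^ (-N)`,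
`phi N vz = q - q⁻¹`. `KK` is a field, `δ = (a - a⁻¹) / z`. -/
def QTX_Stmt : Prop := ∀ (hz : ZNE_Stmt) (P : (n : ℕ) → Br n → Coeffs), IsHomfly P →
  ∀ (N n : ℕ) (b : Br n), gf N n b = gf N 0 1 * phi hz N (P n b)

/-- DIM: PROOF. `tr' 1` on one strand is `∑ c, mu c`, its constant coefficient is `N` (`cc_tr`, or
`mu` has constant coefficient `1`). -/
def DIM_Stmt : Prop := ∀ N : ℕ, 1 ≤ N → gf N 0 1 ≠ 0

/-- INJ: a Laurent polynomial is determined by its values at `a = q, q ^ 2, q ^ 3, ...`, `z = q - q⁻¹`.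
PROOF. Let `f = r - r'`, all `phi N f = 0`. Multiply by a power of `a`: `f = T (-k) * toLaurent g` with
`g : Polynomial (LaurentPolynomial ℤ)` (`LaurentPolynomial.exists_T_pow`). `phi N f = q ^ (-kN) * eval₂ ψ (q ^ N) g`
with `ψ = eval₂ (Int.castRingHom KK) (q - q⁻¹) : LaurentPolynomial ℤ →+* KK`. The polynomial `g.map ψ` has
the roots `q ^ N`, `N ≥ 1`; they are different (`q ^ N = 1 + N X + ...`: coefficient of `X`; or `q ^ m = 1` for
`m > 0` is impossible), so it is `0`. `ψ` is injective: multiply by a power of `z` to get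
`h : Polynomial ℤ` with `h (q - q⁻¹) = 0` in `PowerSeries ℤ`; `q - q⁻¹ = 2 X + ...` has constant coefficient `0`
and nonzero linear coefficient, so the lowest term of `h` gives a nonzero coefficient of `h (q - q⁻¹)`
(`h = X ^ m * h₁`, `h₁.coeff 0 ≠ 0`; `z ^ m ≠ 0` and `h₁ (z)` has constant coefficient `h₁.coeff 0`; the power
series form a domain). -/
def INJ_Stmt : Prop := ∀ (hz : ZNE_Stmt) (r r' : Coeffs), (∀ N : ℕ, 1 ≤ N → phi hz N r = phi hz N r') →
  r = r'

/-! ### Cables -/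

/-- The full twist of the block `k` of `p` strands. -/
def tk (p n : ℕ) (k : Fin (n + 1)) : Br (pn p n) := ev (pn p n) (shw (p * (k : ℕ)) (tor p p))

/-- `Φ` is the `p`-parallel homomorphism of `PARH_Stmt`. -/
def IsPar (p n : ℕ) (Φ : Br n →* Br (pn p n)) : Prop :=
  ∀ w, Bd n w → ev (pn p n) (par p w) = Φ (ev n w)

/-- TOR: torus braids. PROOF. By the definition of `tor` and `ev_replicate`, `ev_iw` (both signs of `r`).
For `shw`: `ev N (shw s x)` is multiplicative in `x`; `shw s (tor p r)` is the same list of letters shifted. -/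
def TOR_Stmt : Prop := ∀ (N s p : ℕ) (r : ℤ),
  ev N (shw s (tor p r)) = ev N (shw s ((List.range (p - 1)).map fun i => (i, true))) ^ r

/-- TWC (uses `TOR_Stmt`, `SLD_Stmt`): the full twists commute with each other and with torus
braids of the first block, and slide through the parallel.
PROOF. (1) `k = l` trivial; `k ≠ l`: the letters of the block `k` are in `[p k, p k + p - 2]`, `ev_far`.
(2) `k ≠ 0`: `ev_far`. `k = 0`: both are powers of the same braid (TOR with `s = 0`, `shw 0 x = x`). (3) SLD for `x = tor p p` (`Bd (p - 1)`), `b = ev n w` by `exists_word`.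
(4) TOR: `ev (tor p r) = g ^ r`, `g` the braid of the word `0, 1, ..., p - 2`; `tk p n 0 = g ^ p`. -/
def TWC_Stmt : Prop := ∀ (p n : ℕ), 1 ≤ p → ∀ Φ : Br n →* Br (pn p n), IsPar p n Φ →
  (∀ k l : Fin (n + 1), Commute (tk p n k) (tk p n l)) ∧
  (∀ (k : Fin (n + 1)) (q : ℤ), Commute (tk p n k) (ev (pn p n) (tor p q))) ∧
  (∀ (b : Br n) (k : Fin (n + 1)), Φ b * tk p n k = tk p n (perm b k) * Φ b) ∧
  (∀ m q : ℤ, tk p n 0 ^ m * ev (pn p n) (tor p q) = ev (pn p n) (tor p (q + p * m)))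

/-- PRB: permutations. PROOF. See IT/Prm.lean, where the permutations of `par p w` and of `tor p 1` are
computed: the strand number `p k + j` (`j < p`) goes to `p (perm w k) + j` under `par p w`, and the torus braid
rotates its block, so its `p`-th power is pure. Use those lemmas (they may be cited), or prove by
generators (`perm_sg`). For the block `k`: the shifted word. -/
def PRB_Stmt : Prop := ∀ (p n : ℕ), 1 ≤ p → ∀ Φ : Br n →* Br (pn p n), IsPar p n Φ →
  (∀ k : Fin (n + 1), perm (tk p n k) = 1) ∧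
  ∀ i : Fin n, perm (Φ (sg i)) * perm (Φ (sg i)) = 1

/-- PSB (uses `TWC_Stmt`): the framed parallel.
PROOF. `Ψ = liftBr`, `Ψ (σ_i) = Φ (σ_i) * (t i)⁻¹`. Rule: `Φ b * t k = t (perm b k) * Φ b`. Far relation: `σ_j` fixes
`i` and `σ_i` fixes `j` for `i + 2 ≤ j`. Braid relation, `j = i + 1` (positions `i.castSucc`, `i.succ = j.castSucc`,
`j.succ`; the twist of `σ_i` is at `i.castSucc`): moving all `t` to the right both sides are
`Φ (σ_i σ_j σ_i) * (t i)⁻² * (t j)⁻¹`: first `σ_i' σ_j' σ_i'`: `(t i)⁻¹ Φ(σ_j) = Φ(σ_j) (t i)⁻¹`,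
`(t i)⁻¹ (t j)⁻¹ Φ(σ_i) = Φ(σ_i) (t j)⁻¹ (t i)⁻¹`; second `σ_j' σ_i' σ_j'`: `(t j)⁻¹ Φ(σ_i) = Φ(σ_i) (t i)⁻¹`,
`(t i)⁻² Φ(σ_j) = Φ(σ_j) (t i)⁻²`. -/
def PSB_Stmt : Prop := ∀ (p n : ℕ), 1 ≤ p → ∀ Φ : Br n →* Br (pn p n), IsPar p n Φ →
  ∃ Ψ : Br n →* Br (pn p n), ∀ i : Fin n, Ψ (sg i) = Φ (sg i) * (tk p n i.castSucc)⁻¹

/-- PSC (uses `TWC_Stmt`): the closure of the framed parallel of a knot with a torus braid is the cable.
PROOF. Claim: for every word `w` with `Bd n w` there are `m : Fin (n + 1) → ℤ` with `∑ m k = - wr w` and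
`Ψ (ev n w) = Φ (ev n w) * T m`, where `T m` is the product of the powers `t k ^ (m k)` (they commute:
`Finset.noncommProd`, or better a homomorphism `(Fin (n + 1) → Multiplicative ℤ) →* Br`, or a list product
`((List.finRange (n+1)).map fun k => t k ^ m k).prod`, or avoid products: let `W` be the submonoid/inductive
set of the pairs (element, total exponent) generated by `(t k ^ (±1), ±1)`). Induction on the word,
moving the `t` to the right. Then: for a knot `b = ev n w`, `c = ev (tor p q)`, an element `Z` of `W` and a sign: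
`Φ b * Z * t k * c` is conjugate to `Φ b * Z * t k' * c` for `k' = (perm b)⁻¹ k` (conjugate by `t k`:
everything commutes with `t k` except `Φ b`), hence Markov equivalent to `Φ b * Z * t 0 * c` (`perm b` is
one cycle: `SameCycle`, `exists_nat_pow_eq`). Replace all factors by `t 0`: `Ψ (ev n w) * c` is Markov
equivalent to `Φ b * t 0 ^ (- wr w) * c = ev (par p w) * ev (tor p (q - p * wr w)) = ev (cab p q w)` (TWC (4),
`IsPar`, `ev_append`). -/
def PSC_Stmt : Prop := ∀ (p n : ℕ) (q : ℤ), 1 ≤ p → ∀ Φ : Br n →* Br (pn p n), IsPar p n Φ →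
  ∀ Ψ : Br n →* Br (pn p n), (∀ i : Fin n, Ψ (sg i) = Φ (sg i) * (tk p n i.castSucc)⁻¹) →
  ∀ w : Word, Bd n w → IsKnot (ev n w) → Relation.EqvGen MarkovMove
    ⟨pn p n, ev (pn p n) (cab p q w)⟩ ⟨pn p n, Ψ (ev n w) * ev (pn p n) (tor p q)⟩

/-- PSI (assembly of `PARH_Stmt`, `TWC_Stmt`, `PRB_Stmt`, `PSB_Stmt`, `PSC_Stmt`; done by helper7). -/
def PSI_Stmt : Prop := ∀ (p n : ℕ) (q : ℤ), 1 ≤ p → ∃ (Ψ : Br n →* Br (pn p n)) (c : Br (pn p n)),
  (∀ i : Fin n, perm (Ψ (sg i)) * perm (Ψ (sg i)) = 1) ∧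
  ∀ w : Word, Bd n w → IsKnot (ev n w) → Relation.EqvGen MarkovMove
    ⟨pn p n, ev (pn p n) (cab p q w)⟩ ⟨pn p n, Ψ (ev n w) * c⟩

/-- VAN. PROOF. As `vanishes_coeff` (LibH11/GlFT.lean), for the more general function
`b ↦ coeff k (tr' (A * rp (Ψ b) * C))` with matrices `A`, `C`. The difference
`rp (Ψ σ_i) - rp (Ψ σ_i⁻¹)` is divisible by `X` because `red (rp g) = pm N (perm g)` (`red_rp`) is the same for both
(`perm (Ψ σ_i)⁻¹ = perm (Ψ σ_i)`); `red Y = 0` implies `Y = X • Y'` (all entries are divisible by `X`). -/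
def VAN_Stmt : Prop := ∀ (n m N k : ℕ) (Ψ : Br n →* Br m) (c : Br m),
  (∀ i : Fin n, perm (Ψ (sg i)) * perm (Ψ (sg i)) = 1) →
  Vanishes (k + 1) (fun b : Br n => PowerSeries.coeff k (tr' (rp N m (Ψ b * c)).val))

/-- FTC (uses `PSI_Stmt`, `VAN_Stmt`, `CWD_Stmt`). PROOF. Fix `p`, `q`, `N`, `k`. `tr' (rp N · ·)` is invariant
under `EqvGen MarkovMove` (`qtr_conj`, `qtr_stab`, `qtr_stabNeg`). Let `v (K) = coeff k (tr' (rp N _ (ev _ (cab p q w))))`,
`K = closure (ev n w)`, `w` a word of the braid with `Bd n w` (`exists_word`, choice), `Quot.lift`: well defined by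
`CWD_Stmt` (and `exists_word`: all words of the same braid have the same value). By PSI the value on a knot
braid `b : Br n` is `coeff k (tr' (rp N _ (Ψ b * c)))`, so `v` has order `≤ k` by VAN, `onBraids_eq_ite`,
`Vanishes.ite`. Cast to `ℂ` (`HasOrderLE.map`), apply the hypothesis for all `k`; `PowerSeries.ext`. -/
def FTC_Stmt : Prop := ∀ (n n' : ℕ) (w w' : Word), Bd n w → Bd n' w' →
  ∀ (h : IsKnot (ev n w)) (h' : IsKnot (ev n' w')),
  (∀ v : Knot → ℂ, IsFiniteType v → v (closure (ev n w) h) = v (closure (ev n' w') h')) →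
  ∀ (p : ℕ) (q : ℤ) (N : ℕ), 1 ≤ p →
    tr' (rp N _ (ev (pn p n) (cab p q w))).val = tr' (rp N _ (ev (pn p n') (cab p q w'))).val

/-- BND (uses `MFW_Stmt`, `QTX_Stmt`, `DIM_Stmt`, `INJ_Stmt`, `ZNE_Stmt`, `FTC_Stmt`): the number of strands.
PROOF. Let `P`, `p`, `q` be as in `Detected n' w'`. By FTC the `gf N` of the two cables are equal, by QTX,
DIM, INJ `P (cab p q w) = P (cab p q w')`. Its exponents `i`, `j` satisfy `2 (p (n'+1) - 1) ≤ j - i` and, by MFW for
`cab p q w`, `j - i ≤ 2 (p (n+1) - 1)`; so `n' ≤ n` as `p ≥ 1` (`pn p n = p * (n + 1) - 1` by definition). -/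
def BND_Stmt : Prop := ∀ (n n' : ℕ) (w w' : Word), Bd n w → Bd n' w' →
  ∀ (h : IsKnot (ev n w)) (h' : IsKnot (ev n' w')),
  (∀ v : Knot → ℂ, IsFiniteType v → v (closure (ev n w) h) = v (closure (ev n' w') h')) →
  Detected n' w' → n' ≤ n

/-- STA. PROOF. `n' = 2`: nothing to do. `n' = 1`: the word `w' ++ [(1, true)]` (`meq_destab` with `v = []`);
`n' = 0`: `w' = []`, the word `[(0, true), (1, true)]`. `meq.isKnot`, `meq.closure_eq`. -/
def STA_Stmt : Prop := ∀ (n' : ℕ) (w' : Word), n' ≤ 2 → Bd n' w' → ∀ h' : IsKnot (ev n' w'),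
  ∃ (b' : Br 2) (hb : IsKnot b'), closure b' hb = closure (ev n' w') h'

/-- EXI (uses `RED_Stmt`, `INJ_Stmt`, `DIM_Stmt`, `ZNE_Stmt`): the HOMFLY polynomial exists. Not needed for the
theorem, only for the readers.
PROOF. Ring `R = ℕ → KK` (index `N`, used for `N + 1`), `F n b = (gf (N+1) n b / gf (N+1) 0 1)_N` satisfies `Sk` for
`a = (q ^ (N+1))_N`, `z = (q - q⁻¹)_N` (see QTX). `M n` = the image of `Coeffs` under `r ↦ (phi (N+1) r)_N`, for
all `n`: RED gives `a ^ e * F n b ∈ M n`, so `F n b` is in the image; it is the image of exactly one `P n b` (INJ).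
The axioms hold because the map is injective. -/
def EXI_Stmt : Prop := ∃ P : (n : ℕ) → Br n → Coeffs, IsHomfly P

end Pool.Agent.HFW
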