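import Pool.Agent.IT.WDefs

/-!
# The HOMFLY polynomial of closed braids (MP_31fd3b_gt)

Definitions for the theorem: every knot of braid index at most 3 is determined by its finite type
invariants, up to the orientation, among all knots whose braid index is detected by the HOMFLY
polynomial of the knot or of one of its cables.

`Br n` is the braid group on `n + 1` strands.
-/

set_option autoImplicit false

namespace Pool.Agent.HFW

open Pool.Agent.LibH11 Pool.Agent.IT

/-- `ℤ[z, z⁻¹][a, a⁻¹]`: an element is a Laurent polynomial in `a` whose coefficients are Laurent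
polynomials in `z`; the coefficient of `a ^ i` in `f` is
`f.coeff i`. -/
abbrev Coeffs : Type := LaurentPolynomial (LaurentPolynomial ℤ)

/-- `a ^ k` -/
noncomputable def va (k : ℤ) : Coeffs := LaurentPolynomial.T k

/-- `z` -/
noncomputable def vz : Coeffs := LaurentPolynomial.C (LaurentPolynomial.T 1)

/-- `P n b` is the HOMFLY polynomial of the link that is the closure of the braid `b` on `n + 1`
strands: the value of the unknot is `1`, the Markov moves do not change it, and
`a P(+) - a⁻¹ P(-) = z P(0)` for links which differ at one crossing only. -/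
structure IsHomfly (P : (n : ℕ) → Br n → Coeffs) : Prop where
  unknot : P 0 1 = 1
  conj : ∀ (n : ℕ) (x b : Br n), P n (x * b * x⁻¹) = P n b
  stabPos : ∀ (n : ℕ) (b : Br n), P (n + 1) (incl b * sg (Fin.last n)) = P n b
  stabNeg : ∀ (n : ℕ) (b : Br n), P (n + 1) (incl b * (sg (Fin.last n))⁻¹) = P n b
  skein : ∀ (n : ℕ) (b : Br n) (i : Fin n),
    va 1 * P n (b * sg i) - va (-1) * P n (b * (sg i)⁻¹) = vz * P n b

/-- The Laurent polynomial `f` has terms `a ^ i` and `a ^ j` with `j - i ≥ 2 n`. (The
Morton-Franks-Williams inequality says that `j - i ≤ 2 n` for the HOMFLY polynomial of the closure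
of a braid on `n + 1` strands.) -/
def Spans (f : Coeffs) (n : ℕ) : Prop := ∃ i j : ℤ,
  f.coeff i ≠ 0 ∧ f.coeff j ≠ 0 ∧ 2 * (n : ℤ) ≤ j - i

/-- The HOMFLY polynomial of the closure of the word `w` on `n + 1` strands, or of one of its
`(p, q)`-cables, shows that the knot is not the closure of a braid with fewer strands: the
Morton-Franks-Williams inequality is an equality for the cable `cab p q w` on `p (n + 1)` strands,
for some `p ≥ 1` and `q` (`p = 1` is the knot itself). -/
def Detected (n : ℕ) (w : Word) : Prop :=
  ∃ P : (n : ℕ) → Br n → Coeffs, IsHomfly P ∧ ∃ (p : ℕ) (q : ℤ), 1 ≤ p ∧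
    Spans (P (p * (n + 1) - 1) (ev (p * (n + 1) - 1) (cab p q w))) (p * (n + 1) - 1)

end Pool.Agent.HFW
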